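import Pool.Agent.H38.PH.Rf

/-!
Assembly of the lower bound for the pigeonhole principle from the size-degree theorem and the expanding graphs
(helper38; project MP_28250c_PH).
-/

set_option autoImplicit false
open scoped Classical

namespace H38PG

open SizeDegree H38PF

theorem pow_aux (r : ℕ) (hr : 1 ≤ r) : 128 * r ≤ 2 ^ (7 * r) := by
  have h : r ≤ 2 ^ (r - 1) := by
    have : r - 1 < 2 ^ (r - 1) := Nat.lt_two_pow_self
    omega
  calc 128 * r ≤ 128 * 2 ^ (r - 1) := Nat.mul_le_mul_left _ h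
    _ = 2 ^ (7 + (r - 1)) := by rw [pow_add]; norm_num
    _ ≤ 2 ^ (7 * r) := Nat.pow_le_pow_right (by norm_num) (by omega)

/-- the numerical part -/
theorem asm_num (A e C : ℕ) (hA : 1 ≤ A) (hC : 1 ≤ C) (he : 1 ≤ e) : ∃ c : ℝ, 0 < c ∧ c ≤ 1 / 4 ∧
    ∀ n m r s t : ℕ, 1 ≤ r → 1 ≤ n → n < m → ((s : ℝ) + t ≤ c * n / r) →
      (c * n ^ (e + 1) / (m ^ e * r ^ (2 * e + 1)) ≤ 1) ∨
      (64 * r ≤ n / (64 * r) / A / 16 ∧ C * (64 * r + s + t + 1) ≤ n / (64 * r) / A / 16 ∧
        c * n ^ (e + 1) / (m ^ e * r ^ (2 * e + 1)) ≤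
          ((n / (64 * r) / A / 16 : ℕ) : ℝ) ^ (e + 1) / (C * ((64 * r * m : ℕ) : ℝ) ^ e)) := by
  have hA0 : (0 : ℝ) < A := by exact_mod_cast hA
  have hC0 : (0 : ℝ) < C := by exact_mod_cast hC
  have hC1 : (1 : ℝ) ≤ C := by exact_mod_cast hC
  have hA1 : (1 : ℝ) ≤ A := by exact_mod_cast hA
  -- A' = 1024 A, threshold n ≥ 520 C A' r²
  refine ⟨1 / (4 * (520 * C * (1024 * A)) * ((2048 * A) ^ (e + 1) * C * 64 ^ e)), by positivity, ?_, ?_⟩
  · rw [div_le_div_iff₀ (by positivity) (by norm_num), one_mul, one_mul]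
    have h1 : (1 : ℝ) ≤ (2048 * A) ^ (e + 1) := one_le_pow₀ (by linarith)
    have h2 : (1 : ℝ) ≤ 64 ^ e := one_le_pow₀ (by norm_num)
    have h3 : (1 : ℝ) ≤ (2048 * A) ^ (e + 1) * C * 64 ^ e := one_le_mul_of_one_le_of_one_le (one_le_mul_of_one_le_of_one_le h1 hC1) h2
    have h4 : (1 : ℝ) ≤ 520 * C * (1024 * A) := one_le_mul_of_one_le_of_one_le (by linarith) (by linarith)
    nlinarith
  · intro n m r s t hr hn hnm hst
    have hr0 : (0 : ℝ) < r := by exact_mod_cast hr
    have hr1 : (1 : ℝ) ≤ r := by exact_mod_cast hr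
    have hn0 : (0 : ℝ) < n := by exact_mod_cast hn
    have hm0 : (0 : ℝ) < m := by exact_mod_cast (by omega : 0 < m)
    have hnm' : (n : ℝ) ≤ m := by exact_mod_cast hnm.le
    set c : ℝ := 1 / (4 * (520 * C * (1024 * A)) * ((2048 * A) ^ (e + 1) * C * 64 ^ e)) with hc
    have h1 : (1 : ℝ) ≤ (2048 * A) ^ (e + 1) := one_le_pow₀ (by linarith)
    have h2 : (1 : ℝ) ≤ 64 ^ e := one_le_pow₀ (by norm_num)
    have h3 : (1 : ℝ) ≤ (2048 * A) ^ (e + 1) * C * 64 ^ e := one_le_mul_of_one_le_of_one_le (one_le_mul_of_one_le_of_one_le h1 hC1) h2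
    have h4 : (1 : ℝ) ≤ 520 * C * (1024 * A) := one_le_mul_of_one_le_of_one_le (by linarith) (by linarith)
    have hc0 : 0 < c := by positivity
    have hcA : c * (4 * (520 * C * (1024 * A))) ≤ 1 := by
      rw [hc, div_mul_eq_mul_div, one_mul, div_le_one (by positivity)]
      exact le_mul_of_one_le_right (by positivity) h3
    have hcB : c ≤ 1 / ((2048 * A) ^ (e + 1) * C * 64 ^ e) := by
      rw [hc]
      apply one_div_le_one_div_of_le (by positivity)
      have : (1 : ℝ) ≤ 4 * (520 * C * (1024 * A)) := by linarith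
      exact le_mul_of_one_le_left (by positivity) this
    by_cases hcase : 520 * C * (1024 * A) * r ^ 2 ≤ n
    · right
      have hdiv : n / (64 * r) / A / 16 = n / (1024 * A * r) := by
        rw [Nat.div_div_eq_div_mul, Nat.div_div_eq_div_mul]
        congr 1
        ring
      rw [hdiv]
      have hpos : 0 < 1024 * A * r := by positivity
      set E : ℕ := n / (1024 * A * r) with hE
      have hEge : 520 * C * r ≤ E := by
        rw [hE, Nat.le_div_iff_mul_le hpos]
        calc 520 * C * r * (1024 * A * r) = 520 * C * (1024 * A) * r ^ 2 := by ring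
          _ ≤ n := hcase
      have hElt : n < (1024 * A * r) * (E + 1) := by
        rw [hE]
        exact Nat.lt_mul_div_succ n hpos
      have hE1 : 1 ≤ E := by
        have : 1 ≤ 520 * C * r := Nat.mul_pos (Nat.mul_pos (by norm_num) hC) hr
        omega
      have hEr : (n : ℝ) / (2048 * A * r) ≤ E := by
        rw [div_le_iff₀ (by positivity)]
        have h5 : n ≤ (1024 * A * r) * (2 * E) := by
          refine hElt.le.trans (Nat.mul_le_mul_left _ (by omega))
        have h6 : (n : ℝ) ≤ (1024 * A * r) * (2 * E) := by exact_mod_cast h5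
        linarith
      refine ⟨?_, ?_, ?_⟩
      · have : 64 * r ≤ 520 * C * r := Nat.mul_le_mul_right r (by omega)
        omega
      · have h5 : C * (s + t) ≤ E / 2 := by
          rw [Nat.le_div_iff_mul_le (by norm_num)]
          have h6 : ((C * (s + t) * 2 : ℕ) : ℝ) ≤ E := by
            push_cast
            have h7 : (C : ℝ) * (s + t) * 2 ≤ C * (c * n / r) * 2 := by
              have := mul_le_mul_of_nonneg_left hst hC0.le
              linarith
            refine h7.trans (le_trans ?_ hEr)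
            have h8 : c * (4096 * A * C) ≤ 1 := by
              refine le_trans ?_ hcA
              apply mul_le_mul_of_nonneg_left _ hc0.le
              nlinarith [mul_pos hA0 hC0]
            rw [le_div_iff₀ (by positivity)]
            have h9 : (C : ℝ) * (c * n / r) * 2 * (2048 * A * r) = c * (4096 * A * C) * n := by
              field_simp
              ring
            rw [h9]
            nlinarith
          exact_mod_cast h6
        have h6 : C * (64 * r + 1) ≤ E / 2 := by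
          rw [Nat.le_div_iff_mul_le (by norm_num)]
          refine le_trans ?_ hEge
          have h7 : C * (64 * r + 1) ≤ C * (65 * r) := Nat.mul_le_mul_left _ (by omega)
          calc C * (64 * r + 1) * 2 ≤ C * (65 * r) * 2 := Nat.mul_le_mul_right _ h7
            _ = 130 * (C * r) := by ring
            _ ≤ 520 * (C * r) := Nat.mul_le_mul_right _ (by norm_num)
            _ = 520 * C * r := by ring
        have h7 : C * (64 * r + s + t + 1) = C * (64 * r + 1) + C * (s + t) := by ring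
        omega
      · have h5 : ((n : ℝ) / (2048 * A * r)) ^ (e + 1) ≤ (E : ℝ) ^ (e + 1) := pow_le_pow_left₀ (by positivity) hEr _
        have h6 : (c * n ^ (e + 1) / (m ^ e * r ^ (2 * e + 1)) : ℝ) ≤
            ((n : ℝ) / (2048 * A * r)) ^ (e + 1) / (C * ((64 * r * m : ℕ) : ℝ) ^ e) := by
          have h7 : ((n : ℝ) / (2048 * A * r)) ^ (e + 1) / (C * ((64 * r * m : ℕ) : ℝ) ^ e) =
              (1 / ((2048 * A) ^ (e + 1) * C * 64 ^ e)) * n ^ (e + 1) / (m ^ e * r ^ (2 * e + 1)) := by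
            push_cast
            rw [div_pow, mul_pow (2048 * (A : ℝ)), mul_pow (64 * (r : ℝ)), mul_pow (64 : ℝ),
              show 2 * e + 1 = (e + 1) + e by ring, pow_add (r : ℝ) (e + 1) e]
            field_simp
          rw [h7]
          apply div_le_div_of_nonneg_right _ (by positivity)
          exact mul_le_mul_of_nonneg_right hcB (by positivity)
        refine h6.trans ?_
        exact div_le_div_of_nonneg_right h5 (by positivity)
    · left
      push Not at hcase
      have h5 : (n : ℝ) ≤ 520 * C * (1024 * A) * r ^ 2 := by exact_mod_cast hcase.le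
      rw [div_le_one (by positivity)]
      have h6 : (n : ℝ) ^ e ≤ (m : ℝ) ^ e := pow_le_pow_left₀ hn0.le hnm' e
      have h7 : (r : ℝ) ^ 2 ≤ (r : ℝ) ^ (2 * e + 1) := pow_le_pow_right₀ hr1 (by omega)
      have h8 : c * n ≤ (r : ℝ) ^ (2 * e + 1) := by
        calc c * n ≤ c * (520 * C * (1024 * A) * r ^ 2) := mul_le_mul_of_nonneg_left h5 hc0.le
          _ = (c * (4 * (520 * C * (1024 * A)))) * r ^ 2 / 4 := by ring
          _ ≤ 1 * r ^ 2 / 4 := by
            apply div_le_div_of_nonneg_right _ (by norm_num)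
            exact mul_le_mul_of_nonneg_right hcA (by positivity)
          _ ≤ r ^ 2 := by nlinarith [sq_nonneg (r : ℝ)]
          _ ≤ _ := h7
      calc c * (n : ℝ) ^ (e + 1) = n ^ e * (c * n) := by ring
        _ ≤ m ^ e * r ^ (2 * e + 1) := mul_le_mul h6 h8 (by positivity) (by positivity)

/-- The graph for given numbers of pigeons and holes. -/
theorem graph_pick {A : ℕ}
    (hgraph : ∀ r n1 m : ℕ, 1 ≤ r → 1 ≤ n1 → m ≤ 2 ^ r * n1 →
      ∃ (pg : Fin (8 * r * m) → Fin m) (ho : Fin (8 * r * m) → Fin (8 * r * n1)),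
        (∀ e e', pg e = pg e' → ho e = ho e' → e = e') ∧
        (∀ j, (Finset.univ.filter (fun e => pg e = j)).card = 8 * r) ∧ H33RP.Exp (NN pg ho) (n1 / A))
    {n m r : ℕ} (hr : 1 ≤ r) (hnm : n < m) (hmr : m ≤ 2 ^ r * n) (h1 : 64 * r ≤ n / (64 * r) / A / 16) :
    ∃ (pg : Fin (64 * r * m) → Fin m) (ho : Fin (64 * r * m) → Fin (64 * r * (n / (64 * r)))) (hv : Fin (64 * r * m) → Fin n),
      (∀ e e', pg e = pg e' → hv e = hv e' → e = e') ∧ (∀ e e', hv e = hv e' ↔ ho e = ho e') ∧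
      (∀ j, (psi pg ho j).card ≤ 64 * r) ∧ n / (64 * r) / A / 16 ≤ 64 * r * m ∧
      ∀ p : ℕ, Fact p.Prime → ¬ Derives (p := p) (psi pg ho) (n / (64 * r) / A / 16) 1 := by
  set n1 : ℕ := n / (64 * r) with hn1
  have hn1' : 1 ≤ n1 := by
    by_contra hcon
    have h0 : n1 = 0 := Nat.eq_zero_of_not_pos hcon
    rw [h0, Nat.zero_div, Nat.zero_div] at h1
    omega
  have hpos : 0 < 64 * r := by positivity
  have hn2 : n < (64 * r) * (n1 + 1) := by
    rw [hn1]
    exact Nat.lt_mul_div_succ n hpos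
  have hm1 : m ≤ 2 ^ (8 * r) * n1 := by
    calc m ≤ 2 ^ r * n := hmr
      _ ≤ 2 ^ r * ((64 * r) * (2 * n1)) := Nat.mul_le_mul_left _ (hn2.le.trans (Nat.mul_le_mul_left _ (by omega)))
      _ = 2 ^ r * (128 * r) * n1 := by ring
      _ ≤ 2 ^ r * 2 ^ (7 * r) * n1 := Nat.mul_le_mul_right _ (Nat.mul_le_mul_left _ (pow_aux r hr))
      _ = 2 ^ (8 * r) * n1 := by rw [← pow_add]; congr 2; ring
  have h64 : 8 * (8 * r) = 64 * r := by ring
  have hG := hgraph (8 * r) n1 m (by omega) hn1' hm1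
  rw [h64] at hG
  obtain ⟨pg, ho, g1, g2, g3⟩ := hG
  have hle : 64 * r * n1 ≤ n := by
    calc 64 * r * n1 = n / (64 * r) * (64 * r) := by rw [← hn1]; ring
      _ ≤ n := Nat.div_mul_le_self n (64 * r)
  have hk : ∀ j, (Finset.univ.filter (fun e => pg e = j)).card ≤ 64 * r := fun j => (g2 j).le
  refine ⟨pg, ho, fun e => Fin.castLE hle (ho e), ?_, ?_, psi_card (by omega) hk, ?_, ?_⟩
  · intro e e' h5 h6
    exact g1 e e' h5 (Fin.castLE_injective hle h6)
  · exact fun e e' => ⟨fun h => Fin.castLE_injective hle h, fun h => congrArg (Fin.castLE hle) h⟩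
  · calc n1 / A / 16 ≤ n1 := (Nat.div_le_self _ _).trans (Nat.div_le_self _ _)
      _ ≤ 64 * r * n1 := Nat.le_mul_of_pos_left _ (by positivity)
      _ ≤ n := hle
      _ ≤ m := hnm.le
      _ ≤ 64 * r * m := Nat.le_mul_of_pos_left _ (by positivity)
  · intro p hp
    have := hp
    have hE2 : 2 ≤ n1 / A / 16 := by omega
    have hB : 1 ≤ n1 / A := by
      have : n1 / A / 16 ≤ n1 / A := Nat.div_le_self _ _
      omega
    exact not_derives (p := p) g3 (E := n1 / A / 16) (by omega) hB (fun j => (hk j).trans h1) hE2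

theorem fin_small {c X : ℝ} (hc0 : 0 < c) (hc4 : c ≤ 1 / 4) (hX : X ≤ 1) {N : ℕ} (hN : 1 ≤ N) : c * (2 : ℝ) ^ X ≤ N := by
  have hN' : (1 : ℝ) ≤ N := by exact_mod_cast hN
  have h2 : (2 : ℝ) ^ X ≤ 2 := by
    calc (2 : ℝ) ^ X ≤ (2 : ℝ) ^ (1 : ℝ) := Real.rpow_le_rpow_of_exponent_le (by norm_num) hX
      _ = 2 := Real.rpow_one 2
  nlinarith

theorem fin_large {c X Y : ℝ} (hc0 : 0 < c) (hc4 : c ≤ 1 / 4) (hXY : X ≤ Y) {N : ℕ} (h : (2 : ℝ) ^ Y ≤ 4 * N) :
    c * (2 : ℝ) ^ X ≤ N := by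
  have h7 : (2 : ℝ) ^ X ≤ 4 * N := (Real.rpow_le_rpow_of_exponent_le (by norm_num) hXY).trans h
  have hN0 : (0 : ℝ) ≤ N := Nat.cast_nonneg _
  calc c * (2 : ℝ) ^ X ≤ c * (4 * N) := mul_le_mul_of_nonneg_left h7 hc0.le
    _ = (4 * c) * N := by ring
    _ ≤ 1 * N := mul_le_mul_of_nonneg_right (by linarith) hN0
    _ = N := one_mul _

theorem pos_of {n m r : ℕ} (hnm : n < m) (hmr : m ≤ 2 ^ r * n) : 1 ≤ n := by
  rcases Nat.eq_zero_or_pos n with h | h
  · subst h
    omega
  · exact h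

end H38PG
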