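import Pool.Agent.H38.PH.F1

/-!
The Alekhnovich-Razborov operator for CNFs over a field (helper38; generalises helper33's files Sb, Vr, Id).
-/

set_option autoImplicit false
open scoped Classical

namespace H38PF

namespace Cnf

open H33RP (bd Exp Spt spt_card spt_bd spt_max spt_sub spt_private ba_bd_iff)

variable {F : Type} [Field F] {n M : ℕ} (S : Fin M → Finset (Fin n)) (σ : Fin M → Pt n)

/-- The functions which vanish wherever all clauses of `J` are true. -/
def VJ (F : Type) [Field F] (J : Finset (Fin M)) : Submodule F (Fn F n) where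
  carrier := {g | ∀ x, (∀ j ∈ J, ¬ ∀ v ∈ S j, x v = σ j v) → g x = 0}
  add_mem' := by
    intro a b ha hb x hx
    show a x + b x = 0
    rw [ha x hx, hb x hx, add_zero]
  zero_mem' := by
    intro x _
    rfl
  smul_mem' := by
    intro c a ha x hx
    show c * a x = 0
    rw [ha x hx, mul_zero]

variable {S σ}

theorem VJ_mono {J J' : Finset (Fin M)} (h : J ⊆ J') : VJ S σ F J ≤ VJ S σ F J' :=
  fun _ hg x hx => hg x (fun j hj => hx j (h hj))

theorem VJ_mv {J : Finset (Fin M)} {g : Fn F n} (hg : g ∈ VJ S σ F J) (i : Fin n) : mv F i g ∈ VJ S σ F J := by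
  intro x hx
  show vl F (x i) * g x = 0
  rw [hg x hx, mul_zero]

/-- Substitution of the value `b` for the variable `v`. -/
noncomputable def subst (F : Type) [Field F] (v : Fin n) (b : Bool) : Fn F n →ₗ[F] Fn F n :=
  LinearMap.funLeft F F (fun (x : Pt n) => Function.update x v b)

theorem subst_apply (v : Fin n) (b : Bool) (g : Fn F n) (x : Pt n) :
    subst F v b g x = g (Function.update x v b) := rfl

theorem subst_mono_notMem (v : Fin n) (b : Bool) (T : Finset (Fin n)) (h : v ∉ T) :
    subst F v b (mono F T) = mono F T := by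
  funext x
  rw [subst_apply]
  unfold mono
  refine Finset.prod_congr rfl fun i hi => ?_
  rw [Function.update_of_ne]
  rintro rfl
  exact h hi

theorem subst_mono_mem (v : Fin n) (b : Bool) (T : Finset (Fin n)) (h : v ∈ T) :
    subst F v b (mono F T) = vl F b • mono F (T.erase v) := by
  funext x
  rw [subst_apply]
  show ∏ i ∈ T, vl F (Function.update x v b i) = vl F b * ∏ i ∈ T.erase v, vl F (x i)
  rw [← Finset.mul_prod_erase T _ h, Function.update_self]
  congr 1
  refine Finset.prod_congr rfl fun i hi => ?_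
  rw [Function.update_of_ne (Finset.ne_of_mem_erase hi)]

theorem red_erase (o : Finset (Fin n) → ℕ) (ho : Ord o)
    (J : Finset (Fin M)) (j : Fin M) (hj : j ∈ J) (v : Fin n) (hv : v ∈ S j) (T : Finset (Fin n)) (hvT : v ∉ T)
    (hp : ∀ j' ∈ J, v ∈ S j' → j' = j) (h : Red o (VJ S σ F J) T) : Red o (VJ S σ F (J.erase j)) T := by
  obtain ⟨b, hbne⟩ : ∃ b : Bool, b ≠ σ j v := ⟨!(σ j v), by cases σ j v <;> decide⟩
  have h1 : ∀ g ∈ VJ S σ F J, subst F v b g ∈ VJ S σ F (J.erase j) := by
    intro g hg x hx
    rw [subst_apply]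
    refine hg _ fun j' hj' hall => ?_
    by_cases hjj : j' = j
    · subst hjj
      have := hall v hv
      rw [Function.update_self] at this
      exact hbne this
    · have hvj : v ∉ S j' := fun hv' => hjj (hp j' hj' hv')
      refine hx j' (Finset.mem_erase.mpr ⟨hjj, hj'⟩) fun u hu => ?_
      have := hall u hu
      rwa [Function.update_of_ne] at this
      rintro rfl
      exact hvj hu
  have h2 : ∀ w ∈ Submodule.span F (mono F '' {T' | o T' < o T} : Set (Fn F n)),
      subst F v b w ∈ Submodule.span F (mono F '' {T' | o T' < o T} : Set (Fn F n)) := by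
    have hle : Submodule.span F (mono F '' {T' | o T' < o T} : Set (Fn F n)) ≤
        Submodule.comap (subst F v b) (Submodule.span F (mono F '' {T' | o T' < o T} : Set (Fn F n))) := by
      rw [Submodule.span_le]
      rintro _ ⟨T', hT', rfl⟩
      have hT'' : o T' < o T := hT'
      show subst F v b (mono F T') ∈ Submodule.span F (mono F '' {T' | o T' < o T} : Set (Fn F n))
      by_cases hvT' : v ∈ T'
      · rw [subst_mono_mem v b T' hvT']
        refine Submodule.smul_mem _ _ (Submodule.subset_span ⟨T'.erase v, ?_, rfl⟩)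
        exact (ho.2 _ _ (Finset.card_erase_lt_of_mem hvT')).trans hT''
      · rw [subst_mono_notMem v b T' hvT']
        exact Submodule.subset_span ⟨T', hT'', rfl⟩
    exact fun w hw => hle hw
  obtain ⟨g, hg, w, hw, hgw⟩ := Submodule.mem_sup.mp (show mono F T ∈ VJ S σ F J ⊔
    Submodule.span F (mono F '' {T' | o T' < o T}) from h)
  show mono F T ∈ VJ S σ F (J.erase j) ⊔ Submodule.span F (mono F '' {T' | o T' < o T})
  have h3 : mono F T = subst F v b g + subst F v b w := by
    rw [← map_add, hgw, subst_mono_notMem v b T hvT]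
  rw [h3]
  exact Submodule.add_mem_sup (h1 g hg) (h2 w hw)

theorem red_spt {B : ℕ} (o : Finset (Fin n) → ℕ) (ho : Ord o)
    (hS : Exp S B) (T : Finset (Fin n)) (hT : 16 * T.card ≤ B) (J : Finset (Fin M)) (hJ : J.card ≤ B)
    (h1 : Spt S B T ⊆ J) (h : Red o (VJ S σ F J) T) : Red o (VJ S σ F (Spt S B T)) T := by
  obtain ⟨N, hN⟩ : ∃ N, J.card = N := ⟨_, rfl⟩
  induction N using Nat.strong_induction_on generalizing J with
  | _ N ih =>
    by_cases hne : J = Spt S B T
    · rw [hne] at h
      exact h
    · obtain ⟨j, hj, hjs, v, hv, hvT, hp⟩ := spt_private hS T hT J hJ h1 hne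
      have hlt := Finset.card_erase_lt_of_mem hj
      refine ih (J.erase j).card (by omega) (J.erase j) (by omega) ?_ ?_ rfl
      · intro a ha
        rw [Finset.mem_erase]
        refine ⟨?_, h1 ha⟩
        rintro rfl
        exact hjs ha
      · exact red_erase o ho J j hj v hv T hvT hp h

/-- Restriction of functions to the coordinates in `A` (the other coordinates are set to zero). -/
noncomputable def setz (F : Type) [Field F] (A : Finset (Fin n)) : Fn F n →ₗ[F] Fn F n :=
  LinearMap.funLeft F F (fun (x : Pt n) (i : Fin n) => if i ∈ A then x i else false)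

theorem setz_apply (A : Finset (Fin n)) (g : Fn F n) (x : Pt n) :
    setz F A g x = g (fun i => if i ∈ A then x i else false) := rfl

theorem setz_mono_of_subset (A T : Finset (Fin n)) (h : T ⊆ A) : setz F A (mono F T) = mono F T := by
  funext x
  rw [setz_apply]
  unfold mono
  refine Finset.prod_congr rfl fun i hi => ?_
  show vl F (if i ∈ A then x i else false) = vl F (x i)
  rw [if_pos (h hi)]

theorem setz_mono_of_not_subset (A T : Finset (Fin n)) (h : ¬ T ⊆ A) : setz F A (mono F T) = 0 := by
  funext x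
  rw [setz_apply]
  unfold mono
  obtain ⟨i, hi, hiA⟩ := Finset.not_subset.mp h
  refine Finset.prod_eq_zero hi ?_
  show vl F (if i ∈ A then x i else false) = 0
  rw [if_neg hiA]
  rfl

theorem proj_vars (o : Finset (Fin n) → ℕ) (ho : Function.Injective o)
    (J : Finset (Fin M)) (T : Finset (Fin n)) (r : Fn F n)
    (hr : r ∈ Submodule.span F (mono F '' {T' | ¬ Red o (VJ S σ F J) T' ∧ o T' ≤ o T}))
    (hV : mono F T - r ∈ VJ S σ F J) :
    r ∈ Submodule.span F (mono F '' {T' | ¬ Red o (VJ S σ F J) T' ∧ o T' ≤ o T ∧ T' ⊆ T ∪ J.biUnion S}) := by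
  set A := T ∪ J.biUnion S with hA
  have h1 : setz F A r ∈
      Submodule.span F (mono F '' {T' | ¬ Red o (VJ S σ F J) T' ∧ o T' ≤ o T ∧ T' ⊆ A}) := by
    have hle : Submodule.span F (mono F '' {T' | ¬ Red o (VJ S σ F J) T' ∧ o T' ≤ o T}) ≤
        Submodule.comap (setz F A)
          (Submodule.span F (mono F '' {T' | ¬ Red o (VJ S σ F J) T' ∧ o T' ≤ o T ∧ T' ⊆ A})) := by
      rw [Submodule.span_le]
      rintro _ ⟨T', hT', rfl⟩
      show setz F A (mono F T') ∈
        Submodule.span F (mono F '' {T' | ¬ Red o (VJ S σ F J) T' ∧ o T' ≤ o T ∧ T' ⊆ A})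
      by_cases hs : T' ⊆ A
      · rw [setz_mono_of_subset A T' hs]
        exact Submodule.subset_span ⟨T', ⟨hT'.1, hT'.2, hs⟩, rfl⟩
      · rw [setz_mono_of_not_subset A T' hs]
        exact Submodule.zero_mem _
    exact hle hr
  have hinv : ∀ g ∈ VJ S σ F J, setz F A g ∈ VJ S σ F J := by
    intro g hg x hx
    rw [setz_apply]
    refine hg _ fun j hj hall => hx j hj fun v hv => ?_
    have := hall v hv
    rwa [if_pos (Finset.mem_union_right _ (Finset.mem_biUnion.mpr ⟨j, hj, hv⟩))] at this
  have h2 : mono F T - setz F A r ∈ VJ S σ F J := by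
    have := hinv _ hV
    rwa [map_sub, setz_mono_of_subset A T Finset.subset_union_left] at this
  have h3 : r - setz F A r ∈ VJ S σ F J := by
    have := Submodule.sub_mem _ h2 hV
    rwa [sub_sub_sub_cancel_left] at this
  have h4 : r - setz F A r ∈ Submodule.span F (mono F '' {T' | ¬ Red o (VJ S σ F J) T'}) := by
    refine Submodule.sub_mem _ (Submodule.span_mono ?_ hr) (Submodule.span_mono ?_ h1)
    · rintro _ ⟨T', hT', rfl⟩
      exact ⟨T', hT'.1, rfl⟩
    · rintro _ ⟨T', hT', rfl⟩
      exact ⟨T', hT'.1, rfl⟩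
  have h5 := irr_unique o ho _ _ h3 h4
  rw [sub_eq_zero] at h5
  rw [h5]
  exact h1

/-- locality of the projection -/
theorem P_eq {E B : ℕ} (hS : Exp S B) (hE : 16 * E ≤ B) {o : Finset (Fin n) → ℕ} (ho : Ord o)
    {R : Finset (Fin M) → Fn F n →ₗ[F] Fn F n}
    (hR0 : ∀ J, ∀ g ∈ VJ S σ F J, R J g = 0) (hR1 : ∀ J T, ¬ Red o (VJ S σ F J) T → R J (mono F T) = mono F T)
    (hR2 : ∀ J g, g - R J g ∈ VJ S σ F J)
    (hR3 : ∀ J T, R J (mono F T) ∈ Submodule.span F (mono F '' {T' | ¬ Red o (VJ S σ F J) T' ∧ o T' ≤ o T}))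
    {T : Finset (Fin n)} (hT : T.card ≤ E) {J : Finset (Fin M)} (hJ : J.card ≤ B) (hTJ : Spt S B T ⊆ J) :
    R J (mono F T) = R (Spt S B T) (mono F T) := by
  have h1 := proj_vars o ho.1 (Spt S B T) T (R (Spt S B T) (mono F T)) (hR3 _ _) (hR2 _ _)
  have h2 : R J (R (Spt S B T) (mono F T)) = R (Spt S B T) (mono F T) := by
    have hle : Submodule.span F
      (mono F '' {T' | ¬ Red o (VJ S σ F (Spt S B T)) T' ∧ o T' ≤ o T ∧
        T' ⊆ T ∪ (Spt S B T).biUnion S}) ≤ LinearMap.eqLocus (R J) LinearMap.id := by
      rw [Submodule.span_le]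
      rintro _ ⟨T', ⟨hr, ho1, hv⟩, rfl⟩
      have hc : T'.card ≤ E := by
        by_contra hh
        have := ho.2 T' T (by omega)
        omega
      have hsub : Spt S B T' ⊆ Spt S B T := spt_sub hS T T' (by omega) (by omega) hv
      show R J (mono F T') = mono F T'
      apply hR1
      intro hred
      apply hr
      have h3 := red_spt o ho hS T' (by omega) J hJ (hsub.trans hTJ) hred
      have h4 : VJ S σ F (Spt S B T') ≤ VJ S σ F (Spt S B T) := VJ_mono hsub
      exact sup_le_sup_right h4 _ h3
    exact hle h1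
  have h5 : R J (mono F T - R (Spt S B T) (mono F T)) = 0 := hR0 _ _ (VJ_mono hTJ (hR2 _ _))
  rw [map_sub, h2, sub_eq_zero] at h5
  exact h5

/-- Degree lower bound: over every field there is a subspace which contains the indicators of the false sets of the clauses,
is closed under multiplication by variables up to degree `E`, and meets the span of the monomials with empty closure
trivially (in particular it does not contain `1`). -/
theorem op_exists {E B : ℕ} (hS : Exp S B) (hk : ∀ j, (S j).card ≤ E) (hE : 16 * E ≤ B) (hB : 1 ≤ B) :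
    ∃ K : Submodule F (Fn F n), K ≤ RM F n E ∧
      (∀ g ∈ K, ∀ D, D + 1 ≤ E → g ∈ RM F n D → ∀ i : Fin n, mv F i g ∈ K) ∧
      (∀ j, fal F (S j) (σ j) ∈ K) ∧
      (∀ f ∈ Submodule.span F (mono F '' {T : Finset (Fin n) | T.card ≤ E ∧ Spt S B T = ∅}), f ∈ K → f = 0) ∧
      (fun _ => (1 : F)) ∉ K := by
  obtain ⟨o, ho⟩ := ord_exists n
  have hpr := fun J : Finset (Fin M) => proj o ho.1 (VJ S σ F J)
  choose R hR0 hR1 hR2 hR3 using hpr
  obtain ⟨b, hb⟩ : ∃ b : Module.Basis (Finset (Fin n)) F (Fn F n), ∀ T, b T = mono F T := by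
    refine ⟨Module.Basis.mk (mono_li n) (by rw [mono_top]), fun T => ?_⟩
    rw [Module.Basis.mk_apply]
  obtain ⟨L, hL⟩ : ∃ L : Fn F n →ₗ[F] Fn F n, ∀ T : Finset (Fin n), T.card ≤ E →
      L (mono F T) = R (Spt S B T) (mono F T) := by
    refine ⟨b.constr F (fun T => R (Spt S B T) (mono F T)), fun T _ => ?_⟩
    rw [← hb T, Module.Basis.constr_basis, hb]
  have hcc : ∀ {T : Finset (Fin n)}, T.card ≤ E → (Spt S B T).card ≤ B := by
    intro T hT
    have := spt_card hS T (by omega)
    omega
  have hloc : ∀ {J : Finset (Fin M)}, J.card ≤ B → ∀ {g : Fn F n},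
      g ∈ Submodule.span F (mono F '' {T : Finset (Fin n) | T.card ≤ E ∧ Spt S B T ⊆ J}) → L g = R J g := by
    intro J hJ g hg
    have hle : Submodule.span F (mono F '' {T : Finset (Fin n) | T.card ≤ E ∧ Spt S B T ⊆ J}) ≤
        LinearMap.eqLocus L (R J) := by
      rw [Submodule.span_le]
      rintro _ ⟨T, ⟨hT, hTJ⟩, rfl⟩
      show L (mono F T) = R J (mono F T)
      rw [hL T hT, P_eq hS hE ho hR0 hR1 hR2 hR3 hT hJ hTJ]
    exact hle hg
  have hgood : ∀ f ∈ Submodule.span F (mono F '' {T : Finset (Fin n) | T.card ≤ E ∧ Spt S B T = ∅}), L f = f := by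
    intro f hf
    have hle : Submodule.span F (mono F '' {T : Finset (Fin n) | T.card ≤ E ∧ Spt S B T = ∅}) ≤
        LinearMap.eqLocus L LinearMap.id := by
      rw [Submodule.span_le]
      rintro _ ⟨T, ⟨hT, hG⟩, rfl⟩
      show L (mono F T) = mono F T
      rw [hL T hT, hG]
      have h1 := hR2 ∅ (mono F T)
      funext x
      have h2 := h1 x (fun j hj => absurd hj (Finset.notMem_empty j))
      have h3 : mono F T x - R ∅ (mono F T) x = 0 := h2
      exact (sub_eq_zero.1 h3).symm
    exact hle hf
  refine ⟨RM F n E ⊓ LinearMap.ker L, inf_le_left, ?_, ?_, ?_, ?_⟩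
  · rintro g ⟨hg1, hg2⟩ D hD hgD i
    refine ⟨RM_le hD (RM_var hgD i), ?_⟩
    have key : ∀ h ∈ RM F n D, L (mv F i h) = L (mv F i (L h)) := by
      intro h hh
      have hle : RM F n D ≤ LinearMap.eqLocus (L.comp (mv F i)) (L.comp ((mv F i).comp L)) := by
        unfold RM
        rw [Submodule.span_le]
        rintro _ ⟨T, hT, rfl⟩
        have hT1 : T.card ≤ D := hT
        show L (mv F i (mono F T)) = L (mv F i (L (mono F T)))
        have hTE : T.card ≤ E := by omega
        have hiE : (insert i T).card ≤ E := (Finset.card_insert_le i T).trans (by omega)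
        obtain ⟨J, hJd⟩ : ∃ J, J = Spt S B (insert i T) := ⟨_, rfl⟩
        have hJB : J.card ≤ B := by rw [hJd]; exact hcc hiE
        have hcT : Spt S B T ⊆ J := by
          rw [hJd]
          exact spt_sub hS _ _ (by omega) (by omega) ((Finset.subset_insert i T).trans Finset.subset_union_left)
        have hr := proj_vars o ho.1 (Spt S B T) T (R (Spt S B T) (mono F T)) (hR3 _ _) (hR2 _ _)
        have h3 : mv F i (R (Spt S B T) (mono F T)) ∈
            Submodule.span F (mono F '' {T : Finset (Fin n) | T.card ≤ E ∧ Spt S B T ⊆ J}) := by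
          have hle2 : Submodule.span F
              (mono F '' {T' | ¬ Red o (VJ S σ F (Spt S B T)) T' ∧ o T' ≤ o T ∧
                T' ⊆ T ∪ (Spt S B T).biUnion S}) ≤
              Submodule.comap (mv F i)
                (Submodule.span F (mono F '' {T : Finset (Fin n) | T.card ≤ E ∧ Spt S B T ⊆ J})) := by
            rw [Submodule.span_le]
            rintro _ ⟨T', ⟨-, ho1, hv⟩, rfl⟩
            have hc : T'.card ≤ D := by
              by_contra hh
              have := ho.2 T' T (by omega)
              omega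
            have hcE : (insert i T').card ≤ E := (Finset.card_insert_le i T').trans (by omega)
            show mv F i (mono F T') ∈
              Submodule.span F (mono F '' {T : Finset (Fin n) | T.card ≤ E ∧ Spt S B T ⊆ J})
            rw [mv_mono]
            refine Submodule.subset_span ⟨insert i T', ⟨hcE, ?_⟩, rfl⟩
            rw [hJd]
            refine spt_sub hS _ _ (by omega) (by omega) ?_
            intro v hv'
            rw [Finset.mem_insert] at hv'
            rw [Finset.mem_union, Finset.mem_insert]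
            rcases hv' with hv' | hv'
            · exact Or.inl (Or.inl hv')
            · have h4 := hv hv'
              rw [Finset.mem_union] at h4
              rcases h4 with h4 | h4
              · exact Or.inl (Or.inr h4)
              · right
                rw [← hJd]
                rw [Finset.mem_biUnion] at h4 ⊢
                obtain ⟨j, hj, hvj⟩ := h4
                exact ⟨j, hcT hj, hvj⟩
          exact hle2 hr
        rw [hL T hTE, hloc hJB h3, mv_mono, hL _ hiE, ← hJd, ← mv_mono]
        have h6 : R J (mv F i (mono F T - R (Spt S B T) (mono F T))) = 0 := by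
          apply hR0
          exact VJ_mv (VJ_mono hcT (hR2 _ _)) i
        rw [map_sub, map_sub, sub_eq_zero] at h6
        exact h6
      exact hle hh
    have h0 : L g = 0 := hg2
    have h1 := key g hgD
    rw [h0, map_zero, map_zero] at h1
    exact h1
  · -- the clauses
    intro j
    have hcard := hk j
    have hspan := fal_span (F := F) (S j) (σ j)
    have hRM : fal F (S j) (σ j) ∈ RM F n E := by
      refine (Submodule.span_mono ?_) hspan
      rintro _ ⟨T, hT, rfl⟩
      exact ⟨T, (Finset.card_le_card hT).trans hcard, rfl⟩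
    refine ⟨hRM, ?_⟩
    show L (fal F (S j) (σ j)) = 0
    obtain ⟨J, hJd⟩ : ∃ J, J = Spt S B (S j) := ⟨_, rfl⟩
    have hJB : J.card ≤ B := by rw [hJd]; exact hcc hcard
    have h3 : fal F (S j) (σ j) ∈
        Submodule.span F (mono F '' {T : Finset (Fin n) | T.card ≤ E ∧ Spt S B T ⊆ J}) := by
      refine (Submodule.span_mono ?_) hspan
      rintro _ ⟨T, hT, rfl⟩
      have hT' : T ⊆ S j := hT
      have hTE := (Finset.card_le_card hT').trans hcard
      refine ⟨T, ⟨hTE, ?_⟩, rfl⟩
      rw [hJd]
      exact spt_sub hS _ _ (by omega) (by omega) (hT'.trans Finset.subset_union_left)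
    rw [hloc hJB h3]
    apply hR0
    intro x hx
    unfold fal
    rw [if_neg]
    have hjJ : j ∈ J := by
      rw [hJd]
      refine spt_max _ {j} (by rw [Finset.card_singleton]; exact hB) ?_ (Finset.mem_singleton_self j)
      intro v hv
      obtain ⟨j', hj', hv', -⟩ := ba_bd_iff.1 hv
      rw [Finset.mem_singleton] at hj'
      rw [hj'] at hv'
      exact hv'
    exact hx j hjJ
  · -- monomials with empty closure
    rintro f hf ⟨-, hf2⟩
    rw [← hgood f hf]
    exact hf2
  · -- `1` is not in the kernel
    rintro ⟨-, h1⟩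
    have h1 : L (fun _ => (1 : F)) = 0 := h1
    have he : (fun _ => (1 : F)) = mono F (∅ : Finset (Fin n)) := by
      funext x
      unfold mono
      rw [Finset.prod_empty]
    have hcl : Spt S B (∅ : Finset (Fin n)) = ∅ := by
      have := spt_card hS (∅ : Finset (Fin n)) (by simp)
      rw [Finset.card_empty, mul_zero, Nat.le_zero, Finset.card_eq_zero] at this
      exact this
    rw [he, hgood _ (Submodule.subset_span ⟨∅, ⟨by simp, hcl⟩, rfl⟩)] at h1
    have h4 := congrFun h1 (fun _ => false)
    unfold mono at h4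
    rw [Finset.prod_empty] at h4
    exact one_ne_zero h4

end Cnf

end H38PF
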