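import Pool.Agent.H96.RE.Defs
import Pool.Agent.H33.RP.Prp

/-!
Definitions for the exponential lower bound for the pigeonhole principle in resolution over parities (helper38; project
MP_28250c_PH; no row).  Variables `e : Fin M`; `pg e` is the pigeon and `ho e` the hole of the edge `e`.
-/

set_option autoImplicit false
open scoped Classical

namespace H38PH

/-- the holes of the pigeon `j` -/
noncomputable def NN {M P Q : ℕ} (pg : Fin M → Fin P) (ho : Fin M → Fin Q) (j : Fin P) : Finset (Fin Q) :=
  (Finset.univ.filter (fun e => pg e = j)).image ho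

/-- the index type of the clauses: the pigeons, and the pairs of different edges with the same hole -/
abbrev Ix {M P Q : ℕ} (_pg : Fin M → Fin P) (ho : Fin M → Fin Q) : Type :=
  Fin P ⊕ {p : Fin M × Fin M // p.1 ≠ p.2 ∧ ho p.1 = ho p.2}

/-- the variables of the clauses -/
noncomputable def clS {M P Q : ℕ} (pg : Fin M → Fin P) (ho : Fin M → Fin Q) : Ix pg ho → Finset (Fin M)
  | Sum.inl j => Finset.univ.filter (fun e => pg e = j)
  | Sum.inr p => {p.1.1, p.1.2}

/-- the falsifying values -/
def clσ {M P Q : ℕ} (pg : Fin M → Fin P) (ho : Fin M → Fin Q) : Ix pg ho → Fin M → ZMod 2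
  | Sum.inl _ => fun _ => 0
  | Sum.inr _ => fun _ => 1

/-- at most one edge per hole, and no nonempty set of at most `B` pigeons has its boundary in the holes of `T` -/
def GoodP {M P Q : ℕ} (pg : Fin M → Fin P) (ho : Fin M → Fin Q) (B : ℕ) : Set (Finset (Fin M)) :=
  {T | (∀ e ∈ T, ∀ e' ∈ T, ho e = ho e' → e = e') ∧
    ∀ J : Finset (Fin P), J.Nonempty → J.card ≤ B → ¬ H33RP.bd (NN pg ho) J ⊆ T.image ho}

end H38PH
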