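import Pool.Agent.H33.RP.Ba

/-!
Monomials and reduction over a field; points are `Fin n → Bool` (helper38; generalises helper33's file Pr).
-/

set_option autoImplicit false
open scoped Classical

namespace H38PF

/-- 0/1 points -/
abbrev Pt (n : ℕ) := Fin n → Bool

/-- Functions on 0/1 points. -/
abbrev Fn (F : Type) (n : ℕ) := Pt n → F

section
variable {F : Type} [Field F]

/-- The value of a variable. -/
def vl (F : Type) [Field F] (b : Bool) : F := if b then 1 else 0

/-- The monomial of a set of variables. -/
def mono (F : Type) [Field F] {n : ℕ} (T : Finset (Fin n)) : Fn F n := fun x => ∏ i ∈ T, vl F (x i)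

/-- Functions of degree at most `D`. -/
def RM (F : Type) [Field F] (n D : ℕ) : Submodule F (Fn F n) :=
  Submodule.span F (mono F '' {T : Finset (Fin n) | T.card ≤ D})

/-- The indicator of the points that falsify the clause with variables `S` and falsifying values `σ`. -/
noncomputable def fal (F : Type) [Field F] {n : ℕ} (S : Finset (Fin n)) (σ : Pt n) : Fn F n :=
  fun x => if ∀ v ∈ S, x v = σ v then 1 else 0

/-- `T` is reducible modulo `V` for the order `o` of the monomials. -/
def Red {n : ℕ} (o : Finset (Fin n) → ℕ) (V : Submodule F (Fn F n)) (T : Finset (Fin n)) : Prop :=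
  mono F T ∈ V ⊔ Submodule.span F (mono F '' {T' | o T' < o T})

/-- An order of the monomials: injective and refining the degree. -/
def Ord {n : ℕ} (o : Finset (Fin n) → ℕ) : Prop :=
  Function.Injective o ∧ ∀ T T' : Finset (Fin n), T'.card < T.card → o T' < o T

theorem vl_true : vl F true = 1 := rfl
theorem vl_false : vl F false = 0 := rfl

theorem mono_eq {n : ℕ} (T : Finset (Fin n)) (x : Pt n) : mono F T x = if ∀ i ∈ T, x i = true then 1 else 0 := by
  unfold mono
  by_cases h : ∀ i ∈ T, x i = true
  · rw [if_pos h]
    exact Finset.prod_eq_one fun i hi => by rw [h i hi]; rfl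
  · rw [if_neg h]
    push Not at h
    obtain ⟨i, hi, hx⟩ := h
    refine Finset.prod_eq_zero hi ?_
    have hx' : x i = false := by
      cases hb : x i
      · rfl
      · exact absurd hb hx
    rw [hx']
    rfl

theorem mono_li (n : ℕ) : LinearIndependent F (mono F : Finset (Fin n) → Fn F n) := by
  rw [Fintype.linearIndependent_iff]
  intro g hg
  have key : ∀ m : ℕ, ∀ T : Finset (Fin n), T.card = m → g T = 0 := by
    intro m
    induction m using Nat.strong_induction_on with
    | _ m ih =>
      intro T hT
      have h1 := congrFun hg (fun i => decide (i ∈ T))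
      rw [Finset.sum_apply] at h1
      have hev : ∀ T' : Finset (Fin n), (g T' • mono F T') (fun i => decide (i ∈ T)) = g T' * (if T' ⊆ T then 1 else 0) := by
        intro T'
        show g T' * mono F T' (fun i => decide (i ∈ T)) = _
        rw [mono_eq]
        congr 1
        by_cases hs : T' ⊆ T
        · rw [if_pos hs, if_pos]
          intro i hi
          exact decide_eq_true (hs hi)
        · rw [if_neg hs, if_neg]
          intro h
          apply hs
          intro i hi
          exact of_decide_eq_true (h i hi)
      have h2 : ∀ T' ∈ (Finset.univ : Finset (Finset (Fin n))), T' ≠ T →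
          (g T' • mono F T') (fun i => decide (i ∈ T)) = 0 := by
        intro T' _ hne
        rw [hev]
        by_cases hs : T' ⊆ T
        · have hlt : T'.card < T.card := Finset.card_lt_card (Finset.ssubset_iff_subset_ne.mpr ⟨hs, hne⟩)
          rw [ih T'.card (hT ▸ hlt) T' rfl, zero_mul]
        · rw [if_neg hs, mul_zero]
      rw [Finset.sum_eq_single T h2 (fun h => absurd (Finset.mem_univ T) h), hev,
        if_pos (Finset.Subset.refl T), mul_one] at h1
      exact h1
  intro T
  exact key T.card T rfl

theorem mono_top (n : ℕ) : Submodule.span F (Set.range (mono F : Finset (Fin n) → Fn F n)) = ⊤ := by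
  apply (mono_li n).span_eq_top_of_card_eq_finrank'
  rw [Module.finrank_fintype_fun_eq_card]
  simp [Pt]

theorem mono_mul {n : ℕ} (T T' : Finset (Fin n)) : mono F T * mono F T' = mono F (T ∪ T') := by
  funext x
  show mono F T x * mono F T' x = mono F (T ∪ T') x
  rw [mono_eq, mono_eq, mono_eq]
  by_cases h : ∀ i ∈ T ∪ T', x i = true
  · rw [if_pos h, if_pos fun i hi => h i (Finset.mem_union_left _ hi), if_pos fun i hi => h i (Finset.mem_union_right _ hi),
      one_mul]
  · rw [if_neg h]
    push Not at h
    obtain ⟨i, hi, hx⟩ := h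
    rcases Finset.mem_union.mp hi with h2 | h2
    · rw [if_neg fun hh => hx (hh i h2), zero_mul]
    · rw [if_neg (c := ∀ i ∈ T', x i = true) fun hh => hx (hh i h2), mul_zero]

theorem RM_le {n D D' : ℕ} (h : D ≤ D') : RM F n D ≤ RM F n D' := by
  unfold RM
  refine Submodule.span_mono (Set.image_mono ?_)
  intro T hT
  exact le_trans hT h

/-- multiplication by a variable -/
def mv (F : Type) [Field F] {n : ℕ} (i : Fin n) : Fn F n →ₗ[F] Fn F n where
  toFun g := fun x => vl F (x i) * g x
  map_add' a b := by
    funext x
    show vl F (x i) * (a x + b x) = vl F (x i) * a x + vl F (x i) * b x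
    ring
  map_smul' c a := by
    funext x
    show vl F (x i) * (c * a x) = c * (vl F (x i) * a x)
    ring

theorem mv_apply {n : ℕ} (i : Fin n) (g : Fn F n) (x : Pt n) : mv F i g x = vl F (x i) * g x := rfl

theorem mv_mono {n : ℕ} (i : Fin n) (T : Finset (Fin n)) : mv F i (mono F T) = mono F (insert i T) := by
  funext x
  rw [mv_apply]
  have h1 : mono F {i} * mono F T = mono F ({i} ∪ T) := mono_mul {i} T
  have h2 := congrFun h1 x
  rw [Finset.insert_eq, ← h2]
  show vl F (x i) * mono F T x = mono F {i} x * mono F T x
  congr 1
  show vl F (x i) = ∏ k ∈ ({i} : Finset (Fin n)), vl F (x k)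
  rw [Finset.prod_singleton]

theorem RM_var {n D : ℕ} {g : Fn F n} (hg : g ∈ RM F n D) (i : Fin n) : mv F i g ∈ RM F n (D + 1) := by
  have hle : RM F n D ≤ Submodule.comap (mv F i) (RM F n (D + 1)) := by
    unfold RM
    rw [Submodule.span_le]
    rintro _ ⟨T, hT, rfl⟩
    show mv F i (mono F T) ∈ Submodule.span F (mono F '' {T : Finset (Fin n) | T.card ≤ D + 1})
    rw [mv_mono]
    have hT' : T.card ≤ D := hT
    exact Submodule.subset_span ⟨insert i T, (Finset.card_insert_le i T).trans (by omega), rfl⟩
  exact hle hg

theorem fal_span {n : ℕ} (S : Finset (Fin n)) (σ : Pt n) :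
    fal F S σ ∈ Submodule.span F (mono F '' {T : Finset (Fin n) | T ⊆ S}) := by
  induction S using Finset.induction_on with
  | empty =>
    have : fal F (∅ : Finset (Fin n)) σ = mono F ∅ := by
      funext x
      rw [mono_eq]
      unfold fal
      rw [if_pos (by intro v hv; exact absurd hv (Finset.notMem_empty v)),
        if_pos (by intro v hv; exact absurd hv (Finset.notMem_empty v))]
    rw [this]
    exact Submodule.subset_span ⟨∅, Finset.Subset.refl _, rfl⟩
  | insert i S hi ih =>
    have hup : fal F S σ ∈ Submodule.span F (mono F '' {T : Finset (Fin n) | T ⊆ insert i S}) := by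
      refine (Submodule.span_mono ?_) ih
      rintro _ ⟨T, hT, rfl⟩
      exact ⟨T, Finset.Subset.trans hT (Finset.subset_insert i S), rfl⟩
    have hmv : mv F i (fal F S σ) ∈ Submodule.span F (mono F '' {T : Finset (Fin n) | T ⊆ insert i S}) := by
      have hle : Submodule.span F (mono F '' {T : Finset (Fin n) | T ⊆ S}) ≤
          Submodule.comap (mv F i) (Submodule.span F (mono F '' {T : Finset (Fin n) | T ⊆ insert i S})) := by
        rw [Submodule.span_le]
        rintro _ ⟨T, hT, rfl⟩
        show mv F i (mono F T) ∈ Submodule.span F (mono F '' {T : Finset (Fin n) | T ⊆ insert i S})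
        rw [mv_mono]
        exact Submodule.subset_span ⟨insert i T, Finset.insert_subset_insert i hT, rfl⟩
      exact hle ih
    cases hb : σ i
    · have : fal F (insert i S) σ = fal F S σ - mv F i (fal F S σ) := by
        funext x
        show fal F (insert i S) σ x = fal F S σ x - vl F (x i) * fal F S σ x
        unfold fal
        by_cases h : ∀ v ∈ S, x v = σ v
        · rw [if_pos h]
          cases hx : x i
          · rw [if_pos, vl_false, zero_mul, sub_zero]
            intro v hv
            rcases Finset.mem_insert.1 hv with rfl | hv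
            · rw [hx, hb]
            · exact h v hv
          · rw [if_neg, vl_true, one_mul, sub_self]
            intro h'
            have := h' i (Finset.mem_insert_self _ _)
            rw [hx, hb] at this
            cases this
        · rw [if_neg h, if_neg, mul_zero, sub_zero]
          intro h'
          exact h fun v hv => h' v (Finset.mem_insert_of_mem hv)
      rw [this]
      exact Submodule.sub_mem _ hup hmv
    · have : fal F (insert i S) σ = mv F i (fal F S σ) := by
        funext x
        show fal F (insert i S) σ x = vl F (x i) * fal F S σ x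
        unfold fal
        by_cases h : ∀ v ∈ S, x v = σ v
        · rw [if_pos h]
          cases hx : x i
          · rw [if_neg, vl_false, zero_mul]
            intro h'
            have := h' i (Finset.mem_insert_self _ _)
            rw [hx, hb] at this
            cases this
          · rw [if_pos, vl_true, one_mul]
            intro v hv
            rcases Finset.mem_insert.1 hv with rfl | hv
            · rw [hx, hb]
            · exact h v hv
        · rw [if_neg h, if_neg, mul_zero]
          intro h'
          exact h fun v hv => h' v (Finset.mem_insert_of_mem hv)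
      rw [this]
      exact hmv

theorem ord_exists (n : ℕ) : ∃ o : Finset (Fin n) → ℕ, Ord o := by
  let e := Fintype.equivFin (Finset (Fin n))
  set N := Fintype.card (Finset (Fin n)) with hN
  refine ⟨fun T => T.card * N + (e T : ℕ), ?_, ?_⟩
  · intro T T' h
    have h1 : (e T : ℕ) < N := (e T).2
    have h2 : (e T' : ℕ) < N := (e T').2
    have h3 : (T.card * N + (e T : ℕ)) % N = (T'.card * N + (e T' : ℕ)) % N := by
      have h' : T.card * N + (e T : ℕ) = T'.card * N + (e T' : ℕ) := h
      rw [h']
    rw [Nat.mul_add_mod_self_right, Nat.mul_add_mod_self_right, Nat.mod_eq_of_lt h1, Nat.mod_eq_of_lt h2] at h3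
    exact e.injective (Fin.ext h3)
  · intro T T' h
    have h2 : (e T' : ℕ) < N := (e T').2
    have h1 : (T'.card + 1) * N ≤ T.card * N := Nat.mul_le_mul_right _ h
    show T'.card * N + (e T' : ℕ) < T.card * N + (e T : ℕ)
    have h3 : (T'.card + 1) * N = T'.card * N + N := by ring
    omega

/-- Uniqueness: a function of `V` which is a combination of irreducible monomials is zero. -/
theorem irr_unique {n : ℕ} (o : Finset (Fin n) → ℕ) (ho : Function.Injective o) (V : Submodule F (Fn F n))
    (g : Fn F n) (hV : g ∈ V) (hg : g ∈ Submodule.span F (mono F '' {T' | ¬ Red o V T'})) : g = 0 := by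
  rw [Finsupp.mem_span_image_iff_linearCombination] at hg
  obtain ⟨l, hl, rfl⟩ := hg
  by_contra hne
  have hl0 : l ≠ 0 := by
    rintro rfl
    exact hne (by simp)
  have hsne : l.support.Nonempty := Finsupp.support_nonempty_iff.mpr hl0
  obtain ⟨T, hT, hmax⟩ := Finset.exists_max_image l.support o hsne
  have hTirr : ¬ Red o V T := by
    have := (Finsupp.mem_supported F l).mp hl
    exact this hT
  apply hTirr
  have hsum : Finsupp.linearCombination F (mono F : Finset (Fin n) → Fn F n) l
      = l T • mono F T + ∑ T' ∈ l.support.erase T, l T' • mono F T' := by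
    rw [Finsupp.linearCombination_apply, Finsupp.sum, ← Finset.add_sum_erase _ _ hT]
  have hlT : l T ≠ 0 := Finsupp.mem_support_iff.mp hT
  have hrest : ∑ T' ∈ l.support.erase T, l T' • mono F T' ∈
      Submodule.span F (mono F '' {T' | o T' < o T} : Set (Fn F n)) := by
    refine Submodule.sum_mem _ fun T' hT' => Submodule.smul_mem _ _ (Submodule.subset_span ⟨T', ?_, rfl⟩)
    rw [Finset.mem_erase] at hT'
    rcases lt_or_eq_of_le (hmax T' hT'.2) with h | h
    · exact h
    · exact absurd (ho h) hT'.1
  have heq : mono F T = (l T)⁻¹ • (Finsupp.linearCombination F (mono F : Finset (Fin n) → Fn F n) l)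
      + (-(l T)⁻¹) • ∑ T' ∈ l.support.erase T, l T' • mono F T' := by
    rw [hsum, smul_add, smul_smul, inv_mul_cancel₀ hlT, one_smul, neg_smul]
    abel
  show mono F T ∈ V ⊔ Submodule.span F (mono F '' {T' | o T' < o T})
  rw [heq]
  exact Submodule.add_mem_sup (Submodule.smul_mem _ _ hV) (Submodule.smul_mem _ _ hrest)

theorem mono_mem_sup {n : ℕ} (o : Finset (Fin n) → ℕ) (V : Submodule F (Fn F n)) : ∀ (N : ℕ) (T : Finset (Fin n)),
    o T = N → mono F T ∈ V ⊔ Submodule.span F (mono F '' {T' | ¬ Red o V T' ∧ o T' ≤ o T}) := by
  intro N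
  induction N using Nat.strong_induction_on with
  | _ N ih =>
    intro T hT
    by_cases hR : Red o V T
    · have hle : V ⊔ Submodule.span F (mono F '' {T' | o T' < o T}) ≤
          V ⊔ Submodule.span F (mono F '' {T' | ¬ Red o V T' ∧ o T' ≤ o T}) := by
        refine sup_le le_sup_left (Submodule.span_le.mpr ?_)
        rintro _ ⟨T', hT', rfl⟩
        have h1 : o T' < o T := hT'
        have h2 := ih (o T') (by omega) T' rfl
        refine (sup_le_sup_left (Submodule.span_mono ?_) V) h2
        rintro _ ⟨T'', hT'', rfl⟩
        exact ⟨T'', ⟨hT''.1, hT''.2.trans h1.le⟩, rfl⟩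
      exact hle hR
    · exact Submodule.mem_sup_right (Submodule.subset_span ⟨T, ⟨hR, le_rfl⟩, rfl⟩)

theorem proj {n : ℕ} (o : Finset (Fin n) → ℕ) (ho : Function.Injective o) (V : Submodule F (Fn F n)) :
    ∃ P : Fn F n →ₗ[F] Fn F n, (∀ g ∈ V, P g = 0) ∧ (∀ T, ¬ Red o V T → P (mono F T) = mono F T) ∧
      (∀ g, g - P g ∈ V) ∧
      (∀ T, P (mono F T) ∈ Submodule.span F (mono F '' {T' | ¬ Red o V T' ∧ o T' ≤ o T})) := by
  set W : Submodule F (Fn F n) := Submodule.span F (mono F '' {T' | ¬ Red o V T'}) with hW
  have hWT : ∀ T, Submodule.span F (mono F '' {T' | ¬ Red o V T' ∧ o T' ≤ o T}) ≤ W := by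
    intro T
    refine Submodule.span_mono ?_
    rintro _ ⟨T', hT', rfl⟩
    exact ⟨T', hT'.1, rfl⟩
  have hc : IsCompl W V := by
    constructor
    · rw [Submodule.disjoint_def]
      intro g hg hgV
      exact irr_unique o ho V g hgV hg
    · rw [codisjoint_iff, eq_top_iff, ← mono_top n, Submodule.span_le]
      rintro _ ⟨T, rfl⟩
      have h := mono_mem_sup o V (o T) T rfl
      rw [sup_comm]
      exact (sup_le_sup_left (hWT T) V) h
  refine ⟨W.projection V hc, ?_, ?_, ?_, ?_⟩
  · intro g hg
    exact (Submodule.projection_apply_eq_zero_iff hc).mpr hg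
  · intro T hT
    exact Submodule.projection_apply_of_mem_left hc (Submodule.subset_span ⟨T, hT, rfl⟩)
  · intro g
    rw [← Submodule.projection_eq_self_sub_projection hc]
    exact Submodule.projection_apply_mem hc.symm g
  · intro T
    obtain ⟨v, hv, w, hw, hvw⟩ := Submodule.mem_sup.mp (mono_mem_sup o V (o T) T rfl)
    rw [← hvw, map_add, (Submodule.projection_apply_eq_zero_iff hc).mpr hv,
      Submodule.projection_apply_of_mem_left hc (hWT T hw), zero_add]
    exact hw

end

end H38PF
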