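import Pool.Agent.H38.PH.F1

/-!
The Alekhnovich-Razborov operator for the pigeonhole principle over a field; blocks are the holes (helper38).
-/

set_option autoImplicit false
open scoped Classical

namespace H38PF

open H33RP (bd Exp Spt spt_card spt_bd spt_max spt_sub spt_private ba_bd_iff)

/-- the holes of the pigeon `j` -/
noncomputable def NN {M P Q : ℕ} (pg : Fin M → Fin P) (ho : Fin M → Fin Q) (j : Fin P) : Finset (Fin Q) :=
  (Finset.univ.filter (fun e => pg e = j)).image ho

/-- the index type of the clauses: the pigeons, and the pairs of different edges with the same hole -/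
abbrev Ix {M P Q : ℕ} (_pg : Fin M → Fin P) (ho : Fin M → Fin Q) : Type :=
  Fin P ⊕ {p : Fin M × Fin M // p.1 ≠ p.2 ∧ ho p.1 = ho p.2}

/-- the variables of the clauses -/
noncomputable def clS {M P Q : ℕ} (pg : Fin M → Fin P) (ho : Fin M → Fin Q) : Ix pg ho → Finset (Fin M)
  | Sum.inl j => Finset.univ.filter (fun e => pg e = j)
  | Sum.inr p => {p.1.1, p.1.2}

/-- the falsifying values -/
def clσ {M P Q : ℕ} (pg : Fin M → Fin P) (ho : Fin M → Fin Q) : Ix pg ho → Fin M → Bool
  | Sum.inl _ => fun _ => false
  | Sum.inr _ => fun _ => true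

section
variable {F : Type} [Field F] {M P Q : ℕ} (pg : Fin M → Fin P) (ho : Fin M → Fin Q)

/-- at most one edge per hole is true at `x` -/
def HOk (x : Pt M) : Prop := ∀ e e' : Fin M, e ≠ e' → ho e = ho e' → x e = true → x e' = true → False

/-- The functions which vanish at the points with at most one pigeon per hole and all pigeons of `J` placed. -/
def VP (F : Type) [Field F] (J : Finset (Fin P)) : Submodule F (Fn F M) where
  carrier := {g | ∀ x, HOk ho x → (∀ j ∈ J, ∃ e, pg e = j ∧ x e = true) → g x = 0}
  add_mem' := by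
    intro a b ha hb x hx hx'
    show a x + b x = 0
    rw [ha x hx hx', hb x hx hx', add_zero]
  zero_mem' := by
    intro x _ _
    rfl
  smul_mem' := by
    intro c a ha x hx hx'
    show c * a x = 0
    rw [ha x hx hx', mul_zero]

variable {pg ho}

theorem VP_mono {J J' : Finset (Fin P)} (h : J ⊆ J') : VP pg ho F J ≤ VP pg ho F J' :=
  fun _ hg x hx hx' => hg x hx (fun j hj => hx' j (h hj))

theorem VP_mv {J : Finset (Fin P)} {g : Fn F M} (hg : g ∈ VP pg ho F J) (i : Fin M) : mv F i g ∈ VP pg ho F J := by
  intro x hx hx'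
  show vl F (x i) * g x = 0
  rw [hg x hx hx', mul_zero]

/-- Put the edge `e0` in its hole. -/
noncomputable def put (F : Type) [Field F] (ho : Fin M → Fin Q) (e0 : Fin M) : Fn F M →ₗ[F] Fn F M :=
  LinearMap.funLeft F F (fun (x : Pt M) (e : Fin M) => if ho e = ho e0 then decide (e = e0) else x e)

theorem put_apply (e0 : Fin M) (g : Fn F M) (x : Pt M) :
    put F ho e0 g x = g (fun e => if ho e = ho e0 then decide (e = e0) else x e) := rfl

theorem put_mono_out (e0 : Fin M) (T : Finset (Fin M)) (h : ho e0 ∉ T.image ho) :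
    put F ho e0 (mono F T) = mono F T := by
  funext x
  rw [put_apply]
  unfold mono
  refine Finset.prod_congr rfl fun i hi => ?_
  show vl F (if ho i = ho e0 then decide (i = e0) else x i) = vl F (x i)
  rw [if_neg]
  intro h1
  exact h (Finset.mem_image.2 ⟨i, hi, h1⟩)

/-- The image of a monomial is zero or a smaller monomial. -/
theorem put_mono (e0 : Fin M) (T : Finset (Fin M)) :
    put F ho e0 (mono F T) = 0 ∨ put F ho e0 (mono F T) = mono F (T.erase e0) := by
  by_cases h : ∃ e ∈ T, e ≠ e0 ∧ ho e = ho e0
  · obtain ⟨e, he, hne, hh⟩ := h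
    left
    funext x
    rw [put_apply]
    unfold mono
    refine Finset.prod_eq_zero he ?_
    show vl F (if ho e = ho e0 then decide (e = e0) else x e) = 0
    rw [if_pos hh, decide_eq_false hne]
    rfl
  · right
    push Not at h
    funext x
    rw [put_apply]
    unfold mono
    by_cases h0 : e0 ∈ T
    · rw [← Finset.mul_prod_erase T _ h0]
      have h1 : vl F (if ho e0 = ho e0 then decide (e0 = e0) else x e0) = 1 := by
        rw [if_pos rfl, decide_eq_true rfl]
        rfl
      have h2 : ∀ i ∈ T.erase e0, vl F (if ho i = ho e0 then decide (i = e0) else x i) = vl F (x i) := by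
        intro i hi
        rw [Finset.mem_erase] at hi
        rw [if_neg (h i hi.2 hi.1)]
      rw [h1, one_mul]
      exact Finset.prod_congr rfl h2
    · rw [Finset.erase_eq_of_notMem h0]
      refine Finset.prod_congr rfl fun i hi => ?_
      show vl F (if ho i = ho e0 then decide (i = e0) else x i) = vl F (x i)
      rw [if_neg (h i hi (by rintro rfl; exact h0 hi))]

theorem red_erase (o : Finset (Fin M) → ℕ) (ho' : Ord o) (J : Finset (Fin P)) (j : Fin P) (e0 : Fin M)
    (he0 : pg e0 = j) (T : Finset (Fin M)) (hvT : ho e0 ∉ T.image ho)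
    (hp : ∀ j' ∈ J, ho e0 ∈ NN pg ho j' → j' = j) (h : Red o (VP pg ho F J) T) :
    Red o (VP pg ho F (J.erase j)) T := by
  have h1 : ∀ g ∈ VP pg ho F J, put F ho e0 g ∈ VP pg ho F (J.erase j) := by
    intro g hg x hx hx'
    rw [put_apply]
    refine hg _ ?_ ?_
    · intro e e' hne hh h1 h2
      have h1 : (if ho e = ho e0 then decide (e = e0) else x e) = true := h1
      have h2 : (if ho e' = ho e0 then decide (e' = e0) else x e') = true := h2
      by_cases hb : ho e = ho e0
      · have hb' : ho e' = ho e0 := by rw [← hh, hb]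
        rw [if_pos hb] at h1
        rw [if_pos hb'] at h2
        exact hne ((of_decide_eq_true h1).trans (of_decide_eq_true h2).symm)
      · have hb' : ¬ ho e' = ho e0 := by rw [← hh]; exact hb
        rw [if_neg hb] at h1
        rw [if_neg hb'] at h2
        exact hx e e' hne hh h1 h2
    · intro j' hj'
      by_cases hjj : j' = j
      · refine ⟨e0, by rw [he0, hjj], ?_⟩
        show (if ho e0 = ho e0 then decide (e0 = e0) else x e0) = true
        rw [if_pos rfl]
        exact decide_eq_true rfl
      · obtain ⟨e, he, hxe⟩ := hx' j' (Finset.mem_erase.2 ⟨hjj, hj'⟩)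
        refine ⟨e, he, ?_⟩
        show (if ho e = ho e0 then decide (e = e0) else x e) = true
        rw [if_neg]
        · exact hxe
        · intro hb
          apply hjj
          refine hp j' hj' ?_
          unfold NN
          rw [Finset.mem_image]
          exact ⟨e, Finset.mem_filter.2 ⟨Finset.mem_univ _, he⟩, hb⟩
  have h2 : ∀ w ∈ Submodule.span F (mono F '' {T' | o T' < o T} : Set (Fn F M)),
      put F ho e0 w ∈ Submodule.span F (mono F '' {T' | o T' < o T} : Set (Fn F M)) := by
    have hle : Submodule.span F (mono F '' {T' | o T' < o T} : Set (Fn F M)) ≤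
        Submodule.comap (put F ho e0) (Submodule.span F (mono F '' {T' | o T' < o T} : Set (Fn F M))) := by
      rw [Submodule.span_le]
      rintro _ ⟨T', hT', rfl⟩
      have hT'' : o T' < o T := hT'
      show put F ho e0 (mono F T') ∈ Submodule.span F (mono F '' {T' | o T' < o T} : Set (Fn F M))
      rcases put_mono (F := F) (ho := ho) e0 T' with hz | hz
      · rw [hz]
        exact Submodule.zero_mem _
      · rw [hz]
        by_cases h0 : e0 ∈ T'
        · exact Submodule.subset_span
            ⟨T'.erase e0, (ho'.2 _ _ (Finset.card_erase_lt_of_mem h0)).trans hT'', rfl⟩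
        · rw [Finset.erase_eq_of_notMem h0]
          exact Submodule.subset_span ⟨T', hT', rfl⟩
    exact fun w hw => hle hw
  obtain ⟨g, hg, w, hw, hgw⟩ := Submodule.mem_sup.mp (show mono F T ∈ VP pg ho F J ⊔
    Submodule.span F (mono F '' {T' | o T' < o T}) from h)
  show mono F T ∈ VP pg ho F (J.erase j) ⊔ Submodule.span F (mono F '' {T' | o T' < o T})
  have h3 : mono F T = put F ho e0 g + put F ho e0 w := by
    rw [← map_add, hgw, put_mono_out e0 T hvT]
  rw [h3]
  exact Submodule.add_mem_sup (h1 g hg) (h2 w hw)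

theorem red_spt {B : ℕ} (o : Finset (Fin M) → ℕ) (ho' : Ord o)
    (hS : Exp (NN pg ho) B) (T : Finset (Fin M)) (hT : 16 * (T.image ho).card ≤ B) (J : Finset (Fin P))
    (hJ : J.card ≤ B) (h1 : Spt (NN pg ho) B (T.image ho) ⊆ J) (h : Red o (VP pg ho F J) T) :
    Red o (VP pg ho F (Spt (NN pg ho) B (T.image ho))) T := by
  obtain ⟨N, hN⟩ : ∃ N, J.card = N := ⟨_, rfl⟩
  induction N using Nat.strong_induction_on generalizing J with
  | _ N ih =>
    by_cases hne : J = Spt (NN pg ho) B (T.image ho)
    · rw [hne] at h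
      exact h
    · obtain ⟨j, hj, hjs, v, hv, hvT, hp⟩ := spt_private hS (T.image ho) hT J hJ h1 hne
      unfold NN at hv
      rw [Finset.mem_image] at hv
      obtain ⟨e0, he0, rfl⟩ := hv
      rw [Finset.mem_filter] at he0
      have hlt := Finset.card_erase_lt_of_mem hj
      refine ih (J.erase j).card (by omega) (J.erase j) (by omega) ?_ ?_ rfl
      · intro a ha
        rw [Finset.mem_erase]
        refine ⟨?_, h1 ha⟩
        rintro rfl
        exact hjs ha
      · exact red_erase o ho' J j e0 he0.2 T hvT hp h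

/-- Put all edges with hole outside `A` to zero. -/
noncomputable def clr (F : Type) [Field F] (ho : Fin M → Fin Q) (A : Finset (Fin Q)) : Fn F M →ₗ[F] Fn F M :=
  LinearMap.funLeft F F (fun (x : Pt M) (i : Fin M) => if ho i ∈ A then x i else false)

theorem clr_apply (A : Finset (Fin Q)) (g : Fn F M) (x : Pt M) :
    clr F ho A g x = g (fun i => if ho i ∈ A then x i else false) := rfl

theorem clr_mono_of_subset (A : Finset (Fin Q)) (T : Finset (Fin M)) (h : T.image ho ⊆ A) :
    clr F ho A (mono F T) = mono F T := by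
  funext x
  rw [clr_apply]
  unfold mono
  refine Finset.prod_congr rfl fun i hi => ?_
  show vl F (if ho i ∈ A then x i else false) = vl F (x i)
  rw [if_pos (h (Finset.mem_image_of_mem _ hi))]

theorem clr_mono_of_not_subset (A : Finset (Fin Q)) (T : Finset (Fin M)) (h : ¬ T.image ho ⊆ A) :
    clr F ho A (mono F T) = 0 := by
  funext x
  rw [clr_apply]
  unfold mono
  obtain ⟨v, hv, hvA⟩ := Finset.not_subset.mp h
  obtain ⟨i, hi, rfl⟩ := Finset.mem_image.1 hv
  refine Finset.prod_eq_zero hi ?_
  show vl F (if ho i ∈ A then x i else false) = 0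
  rw [if_neg hvA]
  rfl

theorem proj_vars (o : Finset (Fin M) → ℕ) (hoi : Function.Injective o) (J : Finset (Fin P)) (T : Finset (Fin M))
    (r : Fn F M)
    (hr : r ∈ Submodule.span F (mono F '' {T' | ¬ Red o (VP pg ho F J) T' ∧ o T' ≤ o T}))
    (hV : mono F T - r ∈ VP pg ho F J) :
    r ∈ Submodule.span F
      (mono F '' {T' | ¬ Red o (VP pg ho F J) T' ∧ o T' ≤ o T ∧
        T'.image ho ⊆ T.image ho ∪ J.biUnion (NN pg ho)}) := by
  set A := T.image ho ∪ J.biUnion (NN pg ho) with hA
  have h1 : clr F ho A r ∈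
      Submodule.span F (mono F '' {T' | ¬ Red o (VP pg ho F J) T' ∧ o T' ≤ o T ∧ T'.image ho ⊆ A}) := by
    have hle : Submodule.span F (mono F '' {T' | ¬ Red o (VP pg ho F J) T' ∧ o T' ≤ o T}) ≤
        Submodule.comap (clr F ho A)
          (Submodule.span F (mono F '' {T' | ¬ Red o (VP pg ho F J) T' ∧ o T' ≤ o T ∧ T'.image ho ⊆ A})) := by
      rw [Submodule.span_le]
      rintro _ ⟨T', hT', rfl⟩
      show clr F ho A (mono F T') ∈
        Submodule.span F (mono F '' {T' | ¬ Red o (VP pg ho F J) T' ∧ o T' ≤ o T ∧ T'.image ho ⊆ A})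
      by_cases hs : T'.image ho ⊆ A
      · rw [clr_mono_of_subset A T' hs]
        exact Submodule.subset_span ⟨T', ⟨hT'.1, hT'.2, hs⟩, rfl⟩
      · rw [clr_mono_of_not_subset A T' hs]
        exact Submodule.zero_mem _
    exact hle hr
  have hinv : ∀ g ∈ VP pg ho F J, clr F ho A g ∈ VP pg ho F J := by
    intro g hg x hx hx'
    rw [clr_apply]
    refine hg _ ?_ ?_
    · intro e e' hne hh h1 h2
      have h1 : (if ho e ∈ A then x e else false) = true := h1
      have h2 : (if ho e' ∈ A then x e' else false) = true := h2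
      by_cases hb : ho e ∈ A
      · rw [if_pos hb] at h1
        rw [if_pos (by rw [← hh]; exact hb)] at h2
        exact hx e e' hne hh h1 h2
      · rw [if_neg hb] at h1
        cases h1
    · intro j hj
      obtain ⟨e, he, hxe⟩ := hx' j hj
      refine ⟨e, he, ?_⟩
      show (if ho e ∈ A then x e else false) = true
      rw [if_pos]
      · exact hxe
      · refine Finset.mem_union_right _ (Finset.mem_biUnion.2 ⟨j, hj, ?_⟩)
        unfold NN
        exact Finset.mem_image.2 ⟨e, Finset.mem_filter.2 ⟨Finset.mem_univ _, he⟩, rfl⟩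
  have h2 : mono F T - clr F ho A r ∈ VP pg ho F J := by
    have := hinv _ hV
    rwa [map_sub, clr_mono_of_subset A T Finset.subset_union_left] at this
  have h3 : r - clr F ho A r ∈ VP pg ho F J := by
    have := Submodule.sub_mem _ h2 hV
    rwa [sub_sub_sub_cancel_left] at this
  have h4 : r - clr F ho A r ∈ Submodule.span F (mono F '' {T' | ¬ Red o (VP pg ho F J) T'}) := by
    refine Submodule.sub_mem _ (Submodule.span_mono ?_ hr) (Submodule.span_mono ?_ h1)
    · rintro _ ⟨T', hT', rfl⟩
      exact ⟨T', hT'.1, rfl⟩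
    · rintro _ ⟨T', hT', rfl⟩
      exact ⟨T', hT'.1, rfl⟩
  have h5 := irr_unique o hoi _ _ h3 h4
  rw [sub_eq_zero] at h5
  rw [h5]
  exact h1

/-- the closure of a set of edges -/
noncomputable def cl (pg : Fin M → Fin P) (ho : Fin M → Fin Q) (B : ℕ) (T : Finset (Fin M)) : Finset (Fin P) :=
  Spt (NN pg ho) B (T.image ho)

theorem card_ho {E B : ℕ} (hE : 16 * E ≤ B) {T : Finset (Fin M)} (hT : T.card ≤ E) : 16 * (T.image ho).card ≤ B := by
  have := Finset.card_image_le (s := T) (f := ho)
  omega

theorem cl_card {E B : ℕ} (hS : Exp (NN pg ho) B) (hE : 16 * E ≤ B) {T : Finset (Fin M)} (hT : T.card ≤ E) :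
    (cl pg ho B T).card ≤ B := by
  have h1 := spt_card hS (T.image ho) (card_ho hE hT)
  have h2 := Finset.card_image_le (s := T) (f := ho)
  unfold cl
  omega

theorem cl_sub {E B : ℕ} (hS : Exp (NN pg ho) B) (hE : 16 * E ≤ B) {T T' : Finset (Fin M)} (hT : T.card ≤ E)
    (hT' : T'.card ≤ E) (h : T'.image ho ⊆ T.image ho ∪ (cl pg ho B T).biUnion (NN pg ho)) :
    cl pg ho B T' ⊆ cl pg ho B T :=
  spt_sub hS _ _ (card_ho hE hT) (card_ho hE hT') h

/-- locality of the projection -/
theorem P_eq {E B : ℕ} (hS : Exp (NN pg ho) B) (hE : 16 * E ≤ B) {o : Finset (Fin M) → ℕ} (ho' : Ord o)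
    {R : Finset (Fin P) → Fn F M →ₗ[F] Fn F M}
    (hR0 : ∀ J, ∀ g ∈ VP pg ho F J, R J g = 0) (hR1 : ∀ J T, ¬ Red o (VP pg ho F J) T → R J (mono F T) = mono F T)
    (hR2 : ∀ J g, g - R J g ∈ VP pg ho F J)
    (hR3 : ∀ J T, R J (mono F T) ∈ Submodule.span F (mono F '' {T' | ¬ Red o (VP pg ho F J) T' ∧ o T' ≤ o T}))
    {T : Finset (Fin M)} (hT : T.card ≤ E) {J : Finset (Fin P)} (hJ : J.card ≤ B) (hTJ : cl pg ho B T ⊆ J) :
    R J (mono F T) = R (cl pg ho B T) (mono F T) := by
  have h1 := proj_vars o ho'.1 (cl pg ho B T) T (R (cl pg ho B T) (mono F T)) (hR3 _ _) (hR2 _ _)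
  have h2 : R J (R (cl pg ho B T) (mono F T)) = R (cl pg ho B T) (mono F T) := by
    have hle : Submodule.span F
      (mono F '' {T' | ¬ Red o (VP pg ho F (cl pg ho B T)) T' ∧ o T' ≤ o T ∧
        T'.image ho ⊆ T.image ho ∪ (cl pg ho B T).biUnion (NN pg ho)}) ≤ LinearMap.eqLocus (R J) LinearMap.id := by
      rw [Submodule.span_le]
      rintro _ ⟨T', ⟨hr, ho1, hv⟩, rfl⟩
      have hc : T'.card ≤ E := by
        by_contra hh
        have := ho'.2 T' T (by omega)
        omega
      have hsub := cl_sub hS hE hT hc hv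
      show R J (mono F T') = mono F T'
      apply hR1
      intro hred
      apply hr
      have h3 := red_spt o ho' hS T' (card_ho hE hc) J hJ (hsub.trans hTJ) hred
      have h4 : VP pg ho F (Spt (NN pg ho) B (T'.image ho)) ≤ VP pg ho F (cl pg ho B T) := VP_mono hsub
      exact sup_le_sup_right h4 _ h3
    exact hle h1
  have h5 : R J (mono F T - R (cl pg ho B T) (mono F T)) = 0 := hR0 _ _ (VP_mono hTJ (hR2 _ _))
  rw [map_sub, h2, sub_eq_zero] at h5
  exact h5

/-- Degree lower bound: over every field there is a subspace which contains the indicators of the false sets of the clauses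
of the pigeonhole principle on the graph, is closed under multiplication by variables up to degree `E`, and does not
contain `1`. -/
theorem op_exists {E B : ℕ} (hS : Exp (NN pg ho) B) (hE : 16 * E ≤ B) (hB : 1 ≤ B)
    (hk : ∀ j, (Finset.univ.filter (fun e => pg e = j)).card ≤ E) (h2 : 2 ≤ E) :
    ∃ K : Submodule F (Fn F M), K ≤ RM F M E ∧
      (∀ g ∈ K, ∀ D, D + 1 ≤ E → g ∈ RM F M D → ∀ i : Fin M, mv F i g ∈ K) ∧
      (∀ j : Ix pg ho, fal F (clS pg ho j) (clσ pg ho j) ∈ K) ∧ (fun _ => (1 : F)) ∉ K := by
  obtain ⟨o, ho'⟩ := ord_exists M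
  have hpr := fun J : Finset (Fin P) => proj o ho'.1 (VP pg ho F J)
  choose R hR0 hR1 hR2 hR3 using hpr
  obtain ⟨b, hb⟩ : ∃ b : Module.Basis (Finset (Fin M)) F (Fn F M), ∀ T, b T = mono F T := by
    refine ⟨Module.Basis.mk (mono_li M) (by rw [mono_top]), fun T => ?_⟩
    rw [Module.Basis.mk_apply]
  obtain ⟨L, hL⟩ : ∃ L : Fn F M →ₗ[F] Fn F M, ∀ T : Finset (Fin M), T.card ≤ E →
      L (mono F T) = R (cl pg ho B T) (mono F T) := by
    refine ⟨b.constr F (fun T => R (cl pg ho B T) (mono F T)), fun T _ => ?_⟩
    rw [← hb T, Module.Basis.constr_basis, hb]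
  -- locality
  have hloc : ∀ {J : Finset (Fin P)}, J.card ≤ B → ∀ {g : Fn F M},
      g ∈ Submodule.span F (mono F '' {T : Finset (Fin M) | T.card ≤ E ∧ cl pg ho B T ⊆ J}) → L g = R J g := by
    intro J hJ g hg
    have hle : Submodule.span F (mono F '' {T : Finset (Fin M) | T.card ≤ E ∧ cl pg ho B T ⊆ J}) ≤
        LinearMap.eqLocus L (R J) := by
      rw [Submodule.span_le]
      rintro _ ⟨T, ⟨hT, hTJ⟩, rfl⟩
      show L (mono F T) = R J (mono F T)
      rw [hL T hT, P_eq hS hE ho' hR0 hR1 hR2 hR3 hT hJ hTJ]
    exact hle hg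
  refine ⟨RM F M E ⊓ LinearMap.ker L, inf_le_left, ?_, ?_, ?_⟩
  · rintro g ⟨hg1, hg2⟩ D hD hgD i
    refine ⟨RM_le hD (RM_var hgD i), ?_⟩
    have key : ∀ h ∈ RM F M D, L (mv F i h) = L (mv F i (L h)) := by
      intro h hh
      have hle : RM F M D ≤ LinearMap.eqLocus (L.comp (mv F i)) (L.comp ((mv F i).comp L)) := by
        unfold RM
        rw [Submodule.span_le]
        rintro _ ⟨T, hT, rfl⟩
        have hT1 : T.card ≤ D := hT
        show L (mv F i (mono F T)) = L (mv F i (L (mono F T)))
        have hTE : T.card ≤ E := by omega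
        have hiE : (insert i T).card ≤ E := (Finset.card_insert_le i T).trans (by omega)
        obtain ⟨J, hJd⟩ : ∃ J, J = cl pg ho B (insert i T) := ⟨_, rfl⟩
        have hJB : J.card ≤ B := by rw [hJd]; exact cl_card hS hE hiE
        have hcT : cl pg ho B T ⊆ J := by
          rw [hJd]
          exact cl_sub hS hE hiE hTE ((Finset.image_subset_image (Finset.subset_insert i T)).trans
            Finset.subset_union_left)
        have hr := proj_vars o ho'.1 (cl pg ho B T) T (R (cl pg ho B T) (mono F T)) (hR3 _ _) (hR2 _ _)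
        have h3 : mv F i (R (cl pg ho B T) (mono F T)) ∈
            Submodule.span F (mono F '' {T : Finset (Fin M) | T.card ≤ E ∧ cl pg ho B T ⊆ J}) := by
          have hle2 : Submodule.span F
              (mono F '' {T' | ¬ Red o (VP pg ho F (cl pg ho B T)) T' ∧ o T' ≤ o T ∧
                T'.image ho ⊆ T.image ho ∪ (cl pg ho B T).biUnion (NN pg ho)}) ≤
              Submodule.comap (mv F i)
                (Submodule.span F (mono F '' {T : Finset (Fin M) | T.card ≤ E ∧ cl pg ho B T ⊆ J})) := by
            rw [Submodule.span_le]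
            rintro _ ⟨T', ⟨-, ho1, hv⟩, rfl⟩
            have hc : T'.card ≤ D := by
              by_contra hh
              have := ho'.2 T' T (by omega)
              omega
            have hcE : (insert i T').card ≤ E := (Finset.card_insert_le i T').trans (by omega)
            show mv F i (mono F T') ∈
              Submodule.span F (mono F '' {T : Finset (Fin M) | T.card ≤ E ∧ cl pg ho B T ⊆ J})
            rw [mv_mono]
            refine Submodule.subset_span ⟨insert i T', ⟨hcE, ?_⟩, rfl⟩
            rw [hJd]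
            refine cl_sub hS hE hiE hcE ?_
            rw [Finset.image_insert, Finset.image_insert]
            intro v hv'
            rw [Finset.mem_insert] at hv'
            rw [Finset.mem_union, Finset.mem_insert]
            rcases hv' with hv' | hv'
            · exact Or.inl (Or.inl hv')
            · have h4 := hv hv'
              rw [Finset.mem_union] at h4
              rcases h4 with h4 | h4
              · exact Or.inl (Or.inr h4)
              · right
                rw [← hJd]
                rw [Finset.mem_biUnion] at h4 ⊢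
                obtain ⟨j, hj, hvj⟩ := h4
                exact ⟨j, hcT hj, hvj⟩
          exact hle2 hr
        rw [hL T hTE, hloc hJB h3, mv_mono, hL _ hiE, ← hJd, ← mv_mono]
        have h6 : R J (mv F i (mono F T - R (cl pg ho B T) (mono F T))) = 0 := by
          apply hR0
          exact VP_mv (VP_mono hcT (hR2 _ _)) i
        rw [map_sub, map_sub, sub_eq_zero] at h6
        exact h6
      exact hle hh
    have h0 : L g = 0 := hg2
    have h1 := key g hgD
    rw [h0, map_zero, map_zero] at h1
    exact h1
  · -- the clauses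
    intro j
    have hcard : (clS pg ho j).card ≤ E := by
      rcases j with j | p
      · exact hk j
      · exact (Finset.card_insert_le _ _).trans (by rw [Finset.card_singleton]; exact h2)
    have hspan := fal_span (F := F) (clS pg ho j) (clσ pg ho j)
    have hRM : fal F (clS pg ho j) (clσ pg ho j) ∈ RM F M E := by
      refine (Submodule.span_mono ?_) hspan
      rintro _ ⟨T, hT, rfl⟩
      exact ⟨T, (Finset.card_le_card hT).trans hcard, rfl⟩
    refine ⟨hRM, ?_⟩
    show L (fal F (clS pg ho j) (clσ pg ho j)) = 0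
    obtain ⟨J, hJd⟩ : ∃ J, J = cl pg ho B (clS pg ho j) := ⟨_, rfl⟩
    have hJB : J.card ≤ B := by rw [hJd]; exact cl_card hS hE hcard
    have h3 : fal F (clS pg ho j) (clσ pg ho j) ∈
        Submodule.span F (mono F '' {T : Finset (Fin M) | T.card ≤ E ∧ cl pg ho B T ⊆ J}) := by
      refine (Submodule.span_mono ?_) hspan
      rintro _ ⟨T, hT, rfl⟩
      have hT' : T ⊆ clS pg ho j := hT
      have hTE := (Finset.card_le_card hT').trans hcard
      refine ⟨T, ⟨hTE, ?_⟩, rfl⟩
      rw [hJd]
      exact cl_sub hS hE hcard hTE ((Finset.image_subset_image hT').trans Finset.subset_union_left)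
    rw [hloc hJB h3]
    apply hR0
    intro x hx hx'
    unfold fal
    rw [if_neg]
    rcases j with j | p
    · intro hall
      have hjJ : j ∈ J := by
        rw [hJd]
        unfold cl
        refine spt_max _ {j} (by rw [Finset.card_singleton]; exact hB) ?_ (Finset.mem_singleton_self j)
        intro v hv
        obtain ⟨j', hj', hv', -⟩ := ba_bd_iff.1 hv
        rw [Finset.mem_singleton] at hj'
        rw [hj'] at hv'
        exact hv'
      obtain ⟨e, he, hxe⟩ := hx' j hjJ
      have h4 := hall e (Finset.mem_filter.2 ⟨Finset.mem_univ _, he⟩)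
      rw [hxe] at h4
      cases h4
    · intro hall
      refine hx p.1.1 p.1.2 p.2.1 p.2.2 ?_ ?_
      · exact hall _ (Finset.mem_insert_self _ _)
      · exact hall _ (Finset.mem_insert_of_mem (Finset.mem_singleton_self _))
  · -- `1` is not in the kernel
    rintro ⟨-, h1⟩
    have h1 : L (fun _ => (1 : F)) = 0 := h1
    have he : (fun _ => (1 : F)) = mono F (∅ : Finset (Fin M)) := by
      funext x
      unfold mono
      rw [Finset.prod_empty]
    have hcl : cl pg ho B (∅ : Finset (Fin M)) = ∅ := by
      have := spt_card hS ((∅ : Finset (Fin M)).image ho) (by simp)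
      rw [Finset.image_empty, Finset.card_empty, mul_zero, Nat.le_zero, Finset.card_eq_zero] at this
      unfold cl
      rw [Finset.image_empty]
      exact this
    have h3 := hR2 ∅ (mono F (∅ : Finset (Fin M)))
    rw [he, hL ∅ (by simp), hcl] at h1
    rw [h1, sub_zero] at h3
    have h4 := h3 (fun _ => false) (fun e e' _ _ h _ => by cases h) (fun j hj => absurd hj (Finset.notMem_empty j))
    unfold mono at h4
    rw [Finset.prod_empty] at h4
    exact one_ne_zero h4

end

end H38PF
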