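import Pool.Agent.H92.PH.GrK
import Pool.Agent.H38.PH.F2

/-!
The expanding graphs for all numbers of pigeons (helper38; project MP_28250c_PH).
-/

set_option autoImplicit false
open scoped Classical

namespace H38PG

open H38PF

theorem graph_inst (r n1 m : ℕ) (hr : 1 ≤ r) (hn : 1 ≤ n1) (hm : m ≤ 2 ^ r * n1) :
    ∃ (pg : Fin (8 * r * m) → Fin m) (ho : Fin (8 * r * m) → Fin (8 * r * n1)),
      (∀ e e', pg e = pg e' → ho e = ho e' → e = e') ∧
      (∀ j, (Finset.univ.filter (fun e => pg e = j)).card = 8 * r) ∧ H33RP.Exp (NN pg ho) (n1 / 110592) := by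
  obtain ⟨K, hK⟩ : ∃ K, 2 * r = K + 1 := ⟨2 * r - 1, by omega⟩
  have h8 : 8 * r = 4 * (K + 1) := by omega
  rw [h8]
  have hS : 4096 * 27 * (n1 / 110592) ≤ n1 := by omega
  have h := H92PH.ph_graphK K (n1 := n1) (m := m) (S := n1 / 110592) hn (by
    have h1 : 1296 * 2 ^ r ≤ 4096 ^ K := by
      calc 1296 * 2 ^ r ≤ 2 ^ 11 * 2 ^ r := Nat.mul_le_mul_right _ (by norm_num)
        _ = 2 ^ (11 + r) := by rw [← pow_add]
        _ ≤ 2 ^ (12 * K) := Nat.pow_le_pow_right (by norm_num) (by omega)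
        _ = 4096 ^ K := by rw [pow_mul]; norm_num
    calc 1296 * m * (27 * (n1 / 110592)) ^ K ≤ 1296 * (2 ^ r * n1) * (27 * (n1 / 110592)) ^ K :=
          Nat.mul_le_mul_right _ (Nat.mul_le_mul_left _ hm)
      _ = (1296 * 2 ^ r) * (n1 * (27 * (n1 / 110592)) ^ K) := by ring
      _ ≤ 4096 ^ K * (n1 * (27 * (n1 / 110592)) ^ K) := Nat.mul_le_mul_right _ h1
      _ = n1 * (4096 * 27 * (n1 / 110592)) ^ K := by
          rw [mul_assoc 4096 27 (n1 / 110592), mul_pow 4096 (27 * (n1 / 110592)) K]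
          ring
      _ ≤ n1 * n1 ^ K := Nat.mul_le_mul_left _ (Nat.pow_le_pow_left hS K)
      _ = n1 ^ (K + 1) := by ring)
  exact h

end H38PG
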