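import Pool.Agent.H38.PH.Rf

/-!
Restriction of refutations with initial lines (helper38; project MP_28250c_PH).
-/

set_option autoImplicit false
open scoped Classical

namespace H38PG

open SizeDegree H38PF PigeonRes

section
variable {p n n' e t : ℕ} [Fact p.Prime] (ρ : SizeDegree.Pt n' → SizeDegree.Pt n)
  (hρ : ∀ i, (∀ x, ρ x i = false) ∨ ∃ s, ∀ x, ρ x i = x s)

theorem cond_lit (he : 1 ≤ e) (a : Fin n × Bool) : Cond e (lit p a : SizeDegree.Pt n → ZMod p) := by
  refine ⟨PP_mono he (PP_lit a), fun x => ?_⟩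
  unfold lit
  by_cases h : x a.1 = a.2
  · right
    rw [if_pos h]
  · left
    rw [if_neg h]

theorem cond_one : Cond e (fun _ => 1 : SizeDegree.Pt n → ZMod p) :=
  ⟨PP_mono (Nat.zero_le e) (PP_one (p := p) (n := n)), fun _ => Or.inr rfl⟩

include hρ in
theorem infers_restrict {M M' s s' : ℕ} (hs : s ≤ s') (Φ : Fin M → Clause n) (Ψ : Fin M' → Clause n')
    (l : ℕ → Line p n e t) (J : Finset ℕ) (i : ℕ) (h : Infers s Φ ∅ l J (l i)) :
    Infers s' Ψ ∅ (fun i => rline ρ hρ (l i)) J (rline ρ hρ (l i)) := by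
  obtain ⟨A, B, hA, hB, hBc, hsound⟩ := h
  refine ⟨fun j => (A j).image (fun g x => g (ρ x)), B.image (fun g x => g (ρ x)), ?_, ?_, ?_, ?_⟩
  · intro j hj
    obtain ⟨a1, a2, a3⟩ := hA j hj
    refine ⟨Finset.card_image_le.trans (a1.trans hs), ?_, ?_⟩
    · intro g hg
      obtain ⟨g', hg', rfl⟩ := Finset.mem_image.1 hg
      exact cond_comp ρ hρ (a2 g' hg')
    · rintro _ ⟨g, hg, rfl⟩
      have h1 := span_comp ρ (a3 hg)
      have e1 : (fun (g : SizeDegree.Pt n → ZMod p) (x : SizeDegree.Pt n') => g (ρ x)) '' ((l i).E ∪ (A j : Set (SizeDegree.Pt n → ZMod p))) =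
          (rline ρ hρ (l i)).E ∪ (((A j).image (fun g x => g (ρ x)) : Finset (SizeDegree.Pt n' → ZMod p)) : Set (SizeDegree.Pt n' → ZMod p)) := by
        rw [Set.image_union, Finset.coe_image]
        rfl
      rw [e1] at h1
      exact h1
  · exact Finset.card_image_le.trans (hB.trans hs)
  · intro g hg
    obtain ⟨g', hg', rfl⟩ := Finset.mem_image.1 hg
    exact ⟨cond_comp ρ hρ (hBc g' hg').1, span_comp ρ (hBc g' hg').2⟩
  · intro x _ hx2
    have h1 := hsound (ρ x) (fun j hj => absurd hj (Finset.notMem_empty j)) (by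
      intro j hj
      rcases hx2 j hj with h2 | ⟨g, hg, h2⟩
      · exact Or.inl h2
      · obtain ⟨g', hg', rfl⟩ := Finset.mem_image.1 hg
        exact Or.inr ⟨g', hg', h2⟩)
    rcases h1 with h1 | ⟨g, hg, h1⟩
    · exact Or.inl h1
    · exact Or.inr ⟨_, Finset.mem_image.2 ⟨g, hg, rfl⟩, h1⟩

include hρ in
theorem refutation_restrict {M M' s k f N : ℕ} (he : 1 ≤ e) (hk1 : 1 ≤ k) (Φ : Fin M → Clause n) (Ψ : Fin M' → Clause n')
    (hk : ∀ j, (Ψ j).card ≤ k)
    (hcl : ∀ j, (∃ a ∈ Φ j, ∀ x, ρ x a.1 = a.2) ∨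
      ∃ j', ∀ a' ∈ Ψ j', ∃ a ∈ Φ j, ∀ x, (ρ x a.1 = a.2 ↔ x a'.1 = a'.2))
    (h : Refutation p e t f s Φ N) : Refutes p e t (f + 1) (s + k) Ψ N := by
  obtain ⟨l, hN, hlast, hinf⟩ := h
  refine ⟨fun i => rline ρ hρ (l i), hN, fun x hx => hlast (ρ x) ((rline_holds ρ hρ _ x).1 hx), fun i hi => ?_⟩
  rcases hinf i hi with ⟨j, hj⟩ | ⟨J, hJ, hJi, hinfer⟩
  · rcases hcl j with ⟨a, ha, hax⟩ | ⟨j', hj'⟩
    · refine ⟨∅, ∅, by simp, by simp, by simp, fun _ => ∅, {fun _ => 1}, by simp, ?_, ?_, ?_⟩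
      · rw [Finset.card_singleton]
        omega
      · intro g hg
        rw [Finset.mem_singleton] at hg
        subst hg
        refine ⟨cond_one, Submodule.subset_span ⟨lit p a, hj a ha, ?_⟩⟩
        funext x
        show (if ρ x a.1 = a.2 then (1 : ZMod p) else 0) = 1
        rw [if_pos (hax x)]
      · intro x _ _
        exact Or.inr ⟨_, Finset.mem_singleton_self _, rfl⟩
    · refine ⟨∅, {j'}, by simp, by simp, by simp, fun _ => ∅, (Ψ j').image (lit p), by simp, ?_, ?_, ?_⟩
      · exact Finset.card_image_le.trans ((hk j').trans (Nat.le_add_left _ _))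
      · intro g hg
        obtain ⟨a', ha', rfl⟩ := Finset.mem_image.1 hg
        refine ⟨cond_lit he a', Submodule.subset_span ?_⟩
        obtain ⟨a, ha, hax⟩ := hj' a' ha'
        refine ⟨lit p a, hj a ha, ?_⟩
        funext x
        show (if ρ x a.1 = a.2 then (1 : ZMod p) else 0) = if x a'.1 = a'.2 then 1 else 0
        by_cases hx : x a'.1 = a'.2
        · rw [if_pos hx, if_pos ((hax x).2 hx)]
        · rw [if_neg hx, if_neg (fun hh => hx ((hax x).1 hh))]
      · intro x hx _
        obtain ⟨a', ha', hxa⟩ := hx j' (Finset.mem_singleton_self _)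
        refine Or.inr ⟨_, Finset.mem_image.2 ⟨a', ha', rfl⟩, ?_⟩
        show (if x a'.1 = a'.2 then (1 : ZMod p) else 0) = 1
        rw [if_pos hxa]
  · exact ⟨J, ∅, hJ.trans (Nat.le_succ f), by simp, hJi,
      infers_restrict ρ hρ (Nat.le_add_right s k) Φ Ψ l J i hinfer⟩

end

section graph
variable {M m n : ℕ} {pg : Fin M → Fin m} {hv : Fin M → Fin n} (hinj : ∀ e e', pg e = pg e' → hv e = hv e' → e = e')

include hinj in
theorem refutation_graph {p e t f s N Q M' k : ℕ} [Fact p.Prime] (he : 1 ≤ e) (hk1 : 1 ≤ k) (ho : Fin M → Fin Q)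
    (hho : ∀ e e', hv e = hv e' ↔ ho e = ho e')
    (hk : ∀ j, (psi pg ho j).card ≤ k)
    (Φ : Fin M' → Clause (m * n)) (hΦ : IsPHP Φ)
    (h : Refutation p e t f s Φ N) : Refutes p e t (f + 1) (s + k) (psi pg ho) N := by
  refine refutation_restrict (rho pg hv) (rho_or pg hv) he hk1 Φ (psi pg ho) hk ?_ h
  intro a
  rcases hΦ a with ⟨i, hi⟩ | ⟨i, i', j, hne, hi⟩
  · right
    refine ⟨Fintype.equivFin (Ix pg ho) (Sum.inl i), fun a' ha' => ?_⟩
    unfold psi at ha'
    rw [Equiv.symm_apply_apply] at ha'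
    simp only [gcl, Finset.mem_image, Finset.mem_filter, Finset.mem_univ, true_and] at ha'
    obtain ⟨e, he, rfl⟩ := ha'
    rw [hi]
    refine ⟨(finProdFinEquiv (i, hv e), true), Finset.mem_image.2 ⟨hv e, Finset.mem_univ _, rfl⟩, fun x => ?_⟩
    show rho pg hv x (finProdFinEquiv (i, hv e)) = true ↔ x e = true
    rw [← he, rho_edge hinj]
  · rw [hi]
    by_cases h1 : ∃ e, pg e = i ∧ hv e = j
    · by_cases h2 : ∃ e', pg e' = i' ∧ hv e' = j
      · right
        obtain ⟨e, he1, he2⟩ := h1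
        obtain ⟨e', he1', he2'⟩ := h2
        have hee : e ≠ e' := by
          rintro rfl
          exact hne (he1.symm.trans he1')
        refine ⟨Fintype.equivFin (Ix pg ho) (Sum.inr ⟨(e, e'), hee, (hho e e').1 (he2.trans he2'.symm)⟩), fun a' ha' => ?_⟩
        unfold psi at ha'
        rw [Equiv.symm_apply_apply] at ha'
        simp only [gcl, Finset.mem_insert, Finset.mem_singleton] at ha'
        rcases ha' with hl | hl
        · subst hl
          refine ⟨(finProdFinEquiv (i, j), false), by simp [holeClause], fun x => ?_⟩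
          show rho pg hv x (finProdFinEquiv (i, j)) = false ↔ x e = false
          rw [← he1, ← he2, rho_edge hinj]
        · subst hl
          refine ⟨(finProdFinEquiv (i', j), false), by simp [holeClause], fun x => ?_⟩
          show rho pg hv x (finProdFinEquiv (i', j)) = false ↔ x e' = false
          rw [← he1', ← he2', rho_edge hinj]
      · left
        exact ⟨(finProdFinEquiv (i', j), false), by simp [holeClause],
          fun x => rho_not x i' j fun e he hej => h2 ⟨e, he, hej⟩⟩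
    · left
      exact ⟨(finProdFinEquiv (i, j), false), by simp [holeClause],
        fun x => rho_not x i j fun e he hej => h1 ⟨e, he, hej⟩⟩

end graph

end H38PG
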