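import Pool.Agent.H38.PH.Rf

/-!
Restriction of refutations in resolution over parities (helper38; project MP_28250c_PH).
-/

set_option autoImplicit false
open scoped Classical

namespace H38PG

open SizeDegree H38PF PigeonRes

/-- For refutations in resolution over parities. -/
theorem xor_restrict {n n' M M' N : ℕ} (ρ : SizeDegree.Pt n' → SizeDegree.Pt n)
    (hρ : ∀ a : Finset (Fin n), ∃ a' : Finset (Fin n'), ∀ x,
      ∑ i ∈ a, (if ρ x i then (1 : ZMod 2) else 0) = ∑ i ∈ a', (if x i then (1 : ZMod 2) else 0))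
    (Φ : Fin M → Clause n) (Ψ : Fin M' → Clause n')
    (hcl : ∀ j, (∀ x, (Φ j).Holds (ρ x)) ∨ ∃ j', ∀ x, (Ψ j').Holds x → (Φ j).Holds (ρ x))
    (hM' : Nonempty (Fin M')) (h : XorRefutes Φ N) : XorRefutes Ψ N := by
  choose w hw using hρ
  obtain ⟨l, hN, hlast, hinf⟩ := h
  have hL : ∀ (L : XorLine n) x, XorLine.Holds ((fun g : Finset (Fin n) × ZMod 2 => (w g.1, g.2)) '' L) x ↔ L.Holds (ρ x) := by
    intro L x
    constructor
    · rintro ⟨_, ⟨g, hg, rfl⟩, hx⟩
      exact ⟨g, hg, by rw [hw]; exact hx⟩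
    · rintro ⟨g, hg, hx⟩
      exact ⟨_, ⟨g, hg, rfl⟩, by
        show ∑ i ∈ w g.1, (if x i then (1 : ZMod 2) else 0) = g.2
        rw [← hw]
        exact hx⟩
  refine ⟨fun i => (fun g : Finset (Fin n) × ZMod 2 => (w g.1, g.2)) '' (l i), hN,
    fun x hx => hlast (ρ x) ((hL _ x).1 hx), fun i hi => ?_⟩
  rcases hinf i hi with ⟨j, hj⟩ | ⟨j, hj, k, hk, hjk⟩
  · left
    rcases hcl j with h1 | ⟨j', h1⟩
    · obtain ⟨j0⟩ := hM'
      exact ⟨j0, fun x _ => (hL _ x).2 (hj (ρ x) (h1 x))⟩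
    · exact ⟨j', fun x hx => (hL _ x).2 (hj (ρ x) (h1 x hx))⟩
  · right
    exact ⟨j, hj, k, hk, fun x h1 h2 => (hL _ x).2 (hjk (ρ x) ((hL _ x).1 h1) ((hL _ x).1 h2))⟩

section graph
variable {M m n : ℕ} {pg : Fin M → Fin m} {hv : Fin M → Fin n} (hinj : ∀ e e', pg e = pg e' → hv e = hv e' → e = e')

include hinj in
theorem rho_sum (a : Finset (Fin (m * n))) : ∃ a' : Finset (Fin M), ∀ x,
    ∑ i ∈ a, (if rho pg hv x i then (1 : ZMod 2) else 0) = ∑ i ∈ a', (if x i then (1 : ZMod 2) else 0) := by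
  refine ⟨Finset.univ.filter (fun e => finProdFinEquiv (pg e, hv e) ∈ a), fun x => ?_⟩
  have h1 : ∑ e ∈ Finset.univ.filter (fun e => finProdFinEquiv (pg e, hv e) ∈ a), (if x e then (1 : ZMod 2) else 0) =
      ∑ i ∈ (Finset.univ.filter (fun e => finProdFinEquiv (pg e, hv e) ∈ a)).image (fun e => finProdFinEquiv (pg e, hv e)),
        (if rho pg hv x i then (1 : ZMod 2) else 0) := by
    rw [Finset.sum_image]
    · refine Finset.sum_congr rfl fun e _ => ?_
      rw [rho_edge hinj]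
    · intro e _ e' _ hee
      have h2 := finProdFinEquiv.injective hee
      rw [Prod.mk.injEq] at h2
      exact hinj e e' h2.1 h2.2
  rw [h1]
  symm
  refine Finset.sum_subset ?_ ?_
  · intro i hi
    obtain ⟨e, he, rfl⟩ := Finset.mem_image.1 hi
    exact (Finset.mem_filter.1 he).2
  · intro i hi hni
    have : rho pg hv x i = false := by
      unfold rho
      rw [dif_neg]
      rintro ⟨e, he⟩
      refine hni (Finset.mem_image.2 ⟨e, Finset.mem_filter.2 ⟨Finset.mem_univ _, ?_⟩, he⟩)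
      rw [he]
      exact hi
    rw [this]
    rfl

include hinj in
/-- A refutation of the pigeonhole principle gives one of the pigeonhole principle on the graph. -/
theorem xor_graph {N Q M' : ℕ} (ho : Fin M → Fin Q) (hho : ∀ e e', hv e = hv e' ↔ ho e = ho e') (hm : 0 < m)
    (Φ : Fin M' → Clause (m * n))
    (hΦ : ∀ a, (∃ i, Φ a = pigeonClause m n i) ∨ ∃ i i' j, i ≠ i' ∧ Φ a = holeClause m n i i' j)
    (h : XorRefutes Φ N) : XorRefutes (psi pg ho) N :=
  xor_restrict (rho pg hv) (rho_sum hinj) Φ (psi pg ho) (clauses_graph hinj ho hho Φ hΦ)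
    ⟨Fintype.equivFin (Ix pg ho) (Sum.inl ⟨0, hm⟩)⟩ h

end graph

end H38PG
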