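import Pool.Agent.H38.PH.Asm
import Pool.Agent.H38.PH.Gri
import Pool.Agent.H38.PH.Xr
import Pool.Agent.H38.PH.In
import Pool.Agent.H85.SD.Fin

/-!
The lower bounds for the pigeonhole principle (helper38; project MP_28250c_PH).
-/

set_option autoImplicit false
open scoped Classical

namespace H38PG

open SizeDegree H38PF PigeonRes

/-- lines of bounded degree over every prime field -/
theorem php_lines (p : ℕ) [Fact p.Prime] (e f : ℕ) (he : 1 ≤ e) :
    ∃ c : ℝ, 0 < c ∧ ∀ (n m r s t N M : ℕ) (Φ : Fin M → Clause (m * n)), 1 ≤ r → n < m → m ≤ 2 ^ r * n →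
      (s : ℝ) + t ≤ c * n / r → IsPHP Φ →
      Refutation p e t f s Φ N → c * (2 : ℝ) ^ (c * n ^ (e + 1) / (m ^ e * r ^ (2 * e + 1))) ≤ N := by
  obtain ⟨C, hC, hmain⟩ := lines_bound p e (f + 1) he
  obtain ⟨c, hc0, hc4, hnum⟩ := asm_num 110592 e (2 * C) (by norm_num) (by omega) he
  refine ⟨c, hc0, ?_⟩
  intro n m r s t N M Φ hr hnm hmr hst hΦ href
  rcases hnum n m r s t hr (pos_of hnm hmr) hnm hst with h | ⟨h1, h2, h3⟩
  · obtain ⟨_, hN, _⟩ := href
    exact fin_small hc0 hc4 h hN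
  · obtain ⟨pg, ho, hv, g1, g2, g3, g4, g5⟩ := graph_pick graph_inst hr hnm hmr h1
    have h4 : C * (64 * r + (s + 64 * r) + t + 1) ≤ n / (64 * r) / 110592 / 16 := by
      refine le_trans ?_ h2
      calc C * (64 * r + (s + 64 * r) + t + 1) ≤ C * (2 * (64 * r + s + t + 1)) := Nat.mul_le_mul_left _ (by omega)
        _ = 2 * C * (64 * r + s + t + 1) := by ring
    have h5 := hmain _ _ (64 * r) (s + 64 * r) t _ N (psi pg ho) g4 h4 g3 (g5 p inferInstance)
      (refutation_graph g1 he (by omega) ho g2 g3 Φ hΦ href)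
    refine fin_large hc0 hc4 (h3.trans ?_) h5
    have hm0 : (0 : ℝ) < m := by exact_mod_cast (by omega : 0 < m)
    have hr0 : (0 : ℝ) < r := by exact_mod_cast hr
    have hC0 : (0 : ℝ) < C := by exact_mod_cast hC
    push_cast
    apply div_le_div_of_nonneg_left (by positivity) (by positivity)
    apply mul_le_mul_of_nonneg_right _ (by positivity)
    linarith

/-- resolution over parities -/
theorem php_xor :
    ∃ c : ℝ, 0 < c ∧ ∀ (n m r N M : ℕ) (Φ : Fin M → Clause (m * n)), 1 ≤ r → n < m → m ≤ 2 ^ r * n →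
      IsPHP Φ → XorRefutes Φ N → c * (2 : ℝ) ^ (c * n ^ 2 / (m * r ^ 3)) ≤ N := by
  have : Fact (Nat.Prime 2) := ⟨Nat.prime_two⟩
  obtain ⟨C, hC, hmain⟩ := lines_bound 2 1 2 le_rfl
  obtain ⟨c, hc0, hc4, hnum⟩ := asm_num 110592 1 (2 * C) (by norm_num) (by omega) le_rfl
  refine ⟨c, hc0, ?_⟩
  intro n m r N M Φ hr hnm hmr hΦ href
  have hn := pos_of hnm hmr
  have h00 : ((0 : ℕ) : ℝ) + (0 : ℕ) ≤ c * n / r := by
    rw [Nat.cast_zero, add_zero]
    positivity
  have e1 : c * (n : ℝ) ^ 2 / (m * r ^ 3) = c * n ^ (1 + 1) / (m ^ 1 * r ^ (2 * 1 + 1)) := by norm_num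
  rw [e1]
  rcases hnum n m r 0 0 hr hn hnm h00 with h | ⟨h1, h2, h3⟩
  · obtain ⟨_, hN, _⟩ := href
    exact fin_small hc0 hc4 h hN
  · obtain ⟨pg, ho, hv, g1, g2, g3, g4, g5⟩ := graph_pick graph_inst hr hnm hmr h1
    have href' := xor_graph g1 ho g2 (by omega) Φ hΦ href
    have href2 := xor_refutes (psi pg ho) g3 href'
    have h4 : C * (64 * r + max (64 * r) 1 + 0 + 1) ≤ n / (64 * r) / 110592 / 16 := by
      refine le_trans ?_ h2
      rw [max_eq_left (by omega)]
      calc C * (64 * r + 64 * r + 0 + 1) ≤ C * (2 * (64 * r + 0 + 0 + 1)) := Nat.mul_le_mul_left _ (by omega)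
        _ = 2 * C * (64 * r + 0 + 0 + 1) := by ring
    have h5 := hmain _ _ (64 * r) _ 0 _ N (psi pg ho) g4 h4 g3 (g5 2 inferInstance) href2
    refine fin_large hc0 hc4 (h3.trans ?_) h5
    have hm0 : (0 : ℝ) < m := by exact_mod_cast (by omega : 0 < m)
    have hr0 : (0 : ℝ) < r := by exact_mod_cast hr
    have hC0 : (0 : ℝ) < C := by exact_mod_cast hC
    push_cast
    apply div_le_div_of_nonneg_left (by positivity) (by positivity)
    apply mul_le_mul_of_nonneg_right _ (by positivity)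
    linarith

end H38PG
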