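import Pool.Agent.H85.SD.Deg
import Pool.Agent.H38.PH.F2

/-!
The polynomial calculus degree of the pigeonhole principle on an expanding graph (helper38; project MP_28250c_PH).
-/

set_option autoImplicit false
open scoped Classical

namespace H38PG

open SizeDegree H38PF

variable {M P Q : ℕ}

/-- the clauses of the pigeonhole principle on a graph -/
noncomputable def gcl (pg : Fin M → Fin P) (ho : Fin M → Fin Q) : Ix pg ho → Clause M
  | Sum.inl j => (Finset.univ.filter (fun e => pg e = j)).image (fun e => (e, true))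
  | Sum.inr p => {(p.1.1, false), (p.1.2, false)}

/-- the pigeonhole principle on a graph -/
noncomputable def psi (pg : Fin M → Fin P) (ho : Fin M → Fin Q) : Fin (Fintype.card (Ix pg ho)) → Clause M :=
  fun j => gcl pg ho ((Fintype.equivFin (Ix pg ho)).symm j)

theorem psi_card {pg : Fin M → Fin P} {ho : Fin M → Fin Q} {k : ℕ} (h2 : 2 ≤ k)
    (hk : ∀ j, (Finset.univ.filter (fun e => pg e = j)).card ≤ k) (j : Fin (Fintype.card (Ix pg ho))) :
    (psi pg ho j).card ≤ k := by
  unfold psi
  rcases (Fintype.equivFin (Ix pg ho)).symm j with i | i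
  · exact Finset.card_image_le.trans (hk i)
  · exact (Finset.card_le_two).trans h2

theorem gcl_holds (pg : Fin M → Fin P) (ho : Fin M → Fin Q) (i : Ix pg ho) (x : Fin M → Bool) :
    (gcl pg ho i).Holds x ↔ ¬ ∀ v ∈ clS pg ho i, x v = clσ pg ho i v := by
  rcases i with i | i
  · unfold Clause.Holds
    simp only [gcl, clS, clσ, Finset.mem_image, Finset.mem_filter, Finset.mem_univ, true_and, not_forall]
    constructor
    · rintro ⟨_, ⟨e, he, rfl⟩, hx⟩
      refine ⟨e, he, ?_⟩
      have hx' : x e = true := hx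
      rw [hx']
      decide
    · rintro ⟨e, he, hx⟩
      refine ⟨(e, true), ⟨e, he, rfl⟩, ?_⟩
      show x e = true
      cases h : x e
      · exact absurd h hx
      · rfl
  · unfold Clause.Holds
    simp only [gcl, clS, clσ, Finset.mem_insert, Finset.mem_singleton, not_forall]
    constructor
    · rintro ⟨l, hl | hl, hx⟩
      · subst hl
        refine ⟨i.1.1, Or.inl rfl, ?_⟩
        have hx' : x i.1.1 = false := hx
        rw [hx']
        decide
      · subst hl
        refine ⟨i.1.2, Or.inr rfl, ?_⟩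
        have hx' : x i.1.2 = false := hx
        rw [hx']
        decide
    · rintro ⟨e, he, hx⟩
      have hx' : x e = false := by
        cases h : x e
        · rfl
        · exact absurd h hx
      rcases he with he | he
      · exact ⟨(i.1.1, false), Or.inl rfl, by rw [← he]; exact hx'⟩
      · exact ⟨(i.1.2, false), Or.inr rfl, by rw [← he]; exact hx'⟩

theorem mem_RM {p n d : ℕ} [Fact p.Prime] {g : SizeDegree.Pt n → ZMod p} (h : DegLE d g) : g ∈ RM (ZMod p) n d := by
  obtain ⟨a, ha⟩ := h
  have e : g = ∑ T ∈ Finset.univ.filter (fun T : Finset (Fin n) => T.card ≤ d), a T • mono (ZMod p) T := by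
    funext x
    rw [ha, Finset.sum_apply]
    refine Finset.sum_congr rfl fun T _ => ?_
    rfl
  rw [e]
  refine Submodule.sum_mem _ fun T hT => Submodule.smul_mem _ _ (Submodule.subset_span ⟨T, ?_, rfl⟩)
  exact (Finset.mem_filter.mp hT).2

theorem RM_le {p n d : ℕ} [Fact p.Prime] {g : SizeDegree.Pt n → ZMod p} (h : g ∈ RM (ZMod p) n d) : DegLE d g := by
  have hle : RM (ZMod p) n d ≤ PP p n d := by
    unfold RM
    rw [Submodule.span_le]
    rintro _ ⟨T, hT, rfl⟩
    refine ⟨fun S => if S = T then 1 else 0, fun x => ?_⟩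
    rw [Finset.sum_eq_single T]
    · show mono (ZMod p) T x = (if T = T then (1 : ZMod p) else 0) * _
      rw [if_pos rfl, one_mul]
      rfl
    · intro S _ hS
      show (if S = T then (1 : ZMod p) else 0) * _ = 0
      rw [if_neg hS, zero_mul]
    · intro h
      exact (h (Finset.mem_filter.mpr ⟨Finset.mem_univ _, hT⟩)).elim
  exact hle h

theorem derives_le {p n m d : ℕ} [Fact p.Prime] (Φ : Fin m → Clause n) (K : Submodule (ZMod p) (Fn (ZMod p) n))
    (h1 : ∀ g ∈ K, ∀ D, D + 1 ≤ d → g ∈ RM (ZMod p) n D → ∀ i : Fin n, mv (ZMod p) i g ∈ K)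
    (h2 : ∀ j, (fun x => if (Φ j).Holds x then (0 : ZMod p) else 1) ∈ K) {g : SizeDegree.Pt n → ZMod p}
    (hg : Derives Φ d g) : g ∈ K := by
  induction hg with
  | zero => exact K.zero_mem
  | clause j => exact h2 j
  | add _ _ i1 i2 => exact K.add_mem i1 i2
  | smul a _ i1 => exact K.smul_mem a i1
  | mul i _ h3 h4 i1 => exact h1 _ i1 _ h4 (mem_RM h3) i

/-- The pigeonhole principle on an expanding graph has no polynomial calculus refutation of small degree. -/
theorem not_derives {p : ℕ} [Fact p.Prime] {pg : Fin M → Fin P} {ho : Fin M → Fin Q} {E B : ℕ}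
    (hS : H33RP.Exp (NN pg ho) B) (hE : 16 * E ≤ B) (hB : 1 ≤ B)
    (hk : ∀ j, (Finset.univ.filter (fun e => pg e = j)).card ≤ E) (h2 : 2 ≤ E) :
    ¬ Derives (p := p) (psi pg ho) E 1 := by
  obtain ⟨K, _, h3, h4, h5⟩ := op_exists (F := ZMod p) hS hE hB hk h2
  intro h
  refine h5 ?_
  refine derives_le (psi pg ho) K h3 ?_ h
  intro j
  have h6 := h4 ((Fintype.equivFin (Ix pg ho)).symm j)
  have e : (fun x => if (psi pg ho j).Holds x then (0 : ZMod p) else 1) =
      fal (ZMod p) (clS pg ho ((Fintype.equivFin (Ix pg ho)).symm j)) (clσ pg ho ((Fintype.equivFin (Ix pg ho)).symm j)) := by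
    funext x
    unfold fal psi
    by_cases hx : ∀ v ∈ clS pg ho ((Fintype.equivFin (Ix pg ho)).symm j), x v = clσ pg ho ((Fintype.equivFin (Ix pg ho)).symm j) v
    · rw [if_neg ((gcl_holds _ _ _ _).not.2 (not_not.2 hx)), if_pos]
      exact hx
    · rw [if_pos ((gcl_holds _ _ _ _).2 hx), if_neg hx]
  rw [e]
  exact h6

end H38PG
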