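import Pool.Agent.H38.PH.Defs
import Pool.Agent.H33.RP.Ba
import Pool.Agent.H33.RP.Pr
import Pool.Agent.H33.RP.Mb

/-!
The Alekhnovich-Razborov operator for the pigeonhole principle on a bipartite graph; blocks are the holes (helper38).
-/

set_option autoImplicit false
open scoped Classical

namespace H38PH

open ResXor H33RP

variable {M P Q : ℕ} (pg : Fin M → Fin P) (ho : Fin M → Fin Q)

/-- at most one edge per hole is true at `x` -/
def HOk (x : Pt M) : Prop := ∀ e e' : Fin M, e ≠ e' → ho e = ho e' → x e = 1 → x e' = 1 → False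

/-- The functions which vanish at the points with at most one pigeon per hole and all pigeons of `J` placed. -/
def VP (J : Finset (Fin P)) : Submodule (ZMod 2) (Fn M) where
  carrier := {g | ∀ x, HOk ho x → (∀ j ∈ J, ∃ e, pg e = j ∧ x e = 1) → g x = 0}
  add_mem' := by
    intro a b ha hb x hx hx'
    show a x + b x = 0
    rw [ha x hx hx', hb x hx hx', add_zero]
  zero_mem' := by
    intro x _ _
    rfl
  smul_mem' := by
    intro c a ha x hx hx'
    show c * a x = 0
    rw [ha x hx hx', mul_zero]

variable {pg ho}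

theorem VP_mono {J J' : Finset (Fin P)} (h : J ⊆ J') : VP pg ho J ≤ VP pg ho J' :=
  fun _ hg x hx hx' => hg x hx (fun j hj => hx' j (h hj))

theorem VP_mul {J : Finset (Fin P)} {g : Fn M} (hg : g ∈ VP pg ho J) (h : Fn M) : h * g ∈ VP pg ho J := by
  intro x hx hx'
  show h x * g x = 0
  rw [hg x hx hx', mul_zero]

/-- Put the edge `e0` in its hole. -/
noncomputable def put (ho : Fin M → Fin Q) (e0 : Fin M) : Fn M →ₗ[ZMod 2] Fn M :=
  LinearMap.funLeft (ZMod 2) (ZMod 2) (fun (x : Pt M) (e : Fin M) =>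
    if ho e = ho e0 then (if e = e0 then 1 else 0) else x e)

theorem put_apply (e0 : Fin M) (g : Fn M) (x : Pt M) :
    put ho e0 g x = g (fun e => if ho e = ho e0 then (if e = e0 then 1 else 0) else x e) := rfl

theorem put_mono_out (e0 : Fin M) (T : Finset (Fin M)) (h : ho e0 ∉ T.image ho) : put ho e0 (mono T) = mono T := by
  funext x
  rw [put_apply]
  unfold mono
  refine Finset.prod_congr rfl fun i hi => ?_
  show (if ho i = ho e0 then (if i = e0 then (1 : ZMod 2) else 0) else x i) = x i
  rw [if_neg]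
  intro h1
  exact h (Finset.mem_image.2 ⟨i, hi, h1⟩)

/-- The image of a monomial is zero or a smaller monomial. -/
theorem put_mono (e0 : Fin M) (T : Finset (Fin M)) :
    put ho e0 (mono T) = 0 ∨ put ho e0 (mono T) = mono (T.erase e0) := by
  by_cases h : ∃ e ∈ T, e ≠ e0 ∧ ho e = ho e0
  · obtain ⟨e, he, hne, hh⟩ := h
    left
    funext x
    rw [put_apply]
    unfold mono
    refine Finset.prod_eq_zero he ?_
    show (if ho e = ho e0 then (if e = e0 then (1 : ZMod 2) else 0) else x e) = 0
    rw [if_pos hh, if_neg hne]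
  · right
    push Not at h
    funext x
    rw [put_apply]
    unfold mono
    by_cases h0 : e0 ∈ T
    · rw [← Finset.mul_prod_erase T _ h0]
      rw [if_pos rfl, if_pos rfl, one_mul]
      refine Finset.prod_congr rfl fun i hi => ?_
      rw [Finset.mem_erase] at hi
      rw [if_neg (h i hi.2 hi.1)]
    · rw [Finset.erase_eq_of_notMem h0]
      refine Finset.prod_congr rfl fun i hi => ?_
      show (if ho i = ho e0 then (if i = e0 then (1 : ZMod 2) else 0) else x i) = x i
      rw [if_neg (h i hi (by rintro rfl; exact h0 hi))]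

theorem red_erase (o : Finset (Fin M) → ℕ) (ho' : Ord o) (J : Finset (Fin P)) (j : Fin P) (e0 : Fin M)
    (he0 : pg e0 = j) (T : Finset (Fin M)) (hvT : ho e0 ∉ T.image ho)
    (hp : ∀ j' ∈ J, ho e0 ∈ NN pg ho j' → j' = j) (h : Red o (VP pg ho J) T) : Red o (VP pg ho (J.erase j)) T := by
  have h1 : ∀ g ∈ VP pg ho J, put ho e0 g ∈ VP pg ho (J.erase j) := by
    intro g hg x hx hx'
    rw [put_apply]
    refine hg _ ?_ ?_
    · intro e e' hne hh h1 h2
      beta_reduce at h1 h2
      by_cases hb : ho e = ho e0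
      · have hb' : ho e' = ho e0 := by rw [← hh, hb]
        rw [if_pos hb] at h1
        rw [if_pos hb'] at h2
        by_cases c1 : e = e0
        · by_cases c2 : e' = e0
          · exact hne (c1.trans c2.symm)
          · rw [if_neg c2] at h2
            exact zero_ne_one h2
        · rw [if_neg c1] at h1
          exact zero_ne_one h1
      · have hb' : ¬ ho e' = ho e0 := by rw [← hh]; exact hb
        rw [if_neg hb] at h1
        rw [if_neg hb'] at h2
        exact hx e e' hne hh h1 h2
    · intro j' hj'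
      by_cases hjj : j' = j
      · refine ⟨e0, by rw [he0, hjj], ?_⟩
        rw [if_pos rfl, if_pos rfl]
      · obtain ⟨e, he, hxe⟩ := hx' j' (Finset.mem_erase.2 ⟨hjj, hj'⟩)
        refine ⟨e, he, ?_⟩
        rw [if_neg]
        · exact hxe
        · intro hb
          apply hjj
          refine hp j' hj' ?_
          unfold NN
          rw [Finset.mem_image]
          exact ⟨e, Finset.mem_filter.2 ⟨Finset.mem_univ _, he⟩, hb⟩
  have h2 : ∀ w ∈ Submodule.span (ZMod 2) (mono '' {T' | o T' < o T} : Set (Fn M)),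
      put ho e0 w ∈ Submodule.span (ZMod 2) (mono '' {T' | o T' < o T} : Set (Fn M)) := by
    have hle : Submodule.span (ZMod 2) (mono '' {T' | o T' < o T} : Set (Fn M)) ≤
        Submodule.comap (put ho e0) (Submodule.span (ZMod 2) (mono '' {T' | o T' < o T} : Set (Fn M))) := by
      rw [Submodule.span_le]
      rintro _ ⟨T', hT', rfl⟩
      have hT'' : o T' < o T := hT'
      show put ho e0 (mono T') ∈ Submodule.span (ZMod 2) (mono '' {T' | o T' < o T} : Set (Fn M))
      rcases put_mono (ho := ho) e0 T' with hz | hz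
      · rw [hz]
        exact Submodule.zero_mem _
      · rw [hz]
        by_cases h0 : e0 ∈ T'
        · exact Submodule.subset_span
            ⟨T'.erase e0, (ho'.2 _ _ (Finset.card_erase_lt_of_mem h0)).trans hT'', rfl⟩
        · rw [Finset.erase_eq_of_notMem h0]
          exact Submodule.subset_span ⟨T', hT', rfl⟩
    exact fun w hw => hle hw
  obtain ⟨g, hg, w, hw, hgw⟩ := Submodule.mem_sup.mp (show mono T ∈ VP pg ho J ⊔
    Submodule.span (ZMod 2) (mono '' {T' | o T' < o T}) from h)
  show mono T ∈ VP pg ho (J.erase j) ⊔ Submodule.span (ZMod 2) (mono '' {T' | o T' < o T})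
  have h3 : mono T = put ho e0 g + put ho e0 w := by
    rw [← map_add, hgw, put_mono_out e0 T hvT]
  rw [h3]
  exact Submodule.add_mem_sup (h1 g hg) (h2 w hw)

theorem red_spt {B : ℕ} (o : Finset (Fin M) → ℕ) (ho' : Ord o)
    (hS : Exp (NN pg ho) B) (T : Finset (Fin M)) (hT : 16 * (T.image ho).card ≤ B) (J : Finset (Fin P))
    (hJ : J.card ≤ B) (h1 : Spt (NN pg ho) B (T.image ho) ⊆ J) (h : Red o (VP pg ho J) T) :
    Red o (VP pg ho (Spt (NN pg ho) B (T.image ho))) T := by
  obtain ⟨N, hN⟩ : ∃ N, J.card = N := ⟨_, rfl⟩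
  induction N using Nat.strong_induction_on generalizing J with
  | _ N ih =>
    by_cases hne : J = Spt (NN pg ho) B (T.image ho)
    · rw [hne] at h
      exact h
    · obtain ⟨j, hj, hjs, v, hv, hvT, hp⟩ := spt_private hS (T.image ho) hT J hJ h1 hne
      unfold NN at hv
      rw [Finset.mem_image] at hv
      obtain ⟨e0, he0, rfl⟩ := hv
      rw [Finset.mem_filter] at he0
      have hlt := Finset.card_erase_lt_of_mem hj
      refine ih (J.erase j).card (by omega) (J.erase j) (by omega) ?_ ?_ rfl
      · intro a ha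
        rw [Finset.mem_erase]
        refine ⟨?_, h1 ha⟩
        rintro rfl
        exact hjs ha
      · exact red_erase o ho' J j e0 he0.2 T hvT hp h

/-- Put all edges with hole outside `A` to zero. -/
noncomputable def clr (ho : Fin M → Fin Q) (A : Finset (Fin Q)) : Fn M →ₗ[ZMod 2] Fn M :=
  LinearMap.funLeft (ZMod 2) (ZMod 2) (fun (x : Pt M) (i : Fin M) => if ho i ∈ A then x i else 0)

theorem clr_apply (A : Finset (Fin Q)) (g : Fn M) (x : Pt M) :
    clr ho A g x = g (fun i => if ho i ∈ A then x i else 0) := rfl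

theorem clr_mono_of_subset (A : Finset (Fin Q)) (T : Finset (Fin M)) (h : T.image ho ⊆ A) :
    clr ho A (mono T) = mono T := by
  funext x
  rw [clr_apply]
  unfold mono
  refine Finset.prod_congr rfl fun i hi => ?_
  show (if ho i ∈ A then x i else 0) = x i
  rw [if_pos (h (Finset.mem_image_of_mem _ hi))]

theorem clr_mono_of_not_subset (A : Finset (Fin Q)) (T : Finset (Fin M)) (h : ¬ T.image ho ⊆ A) :
    clr ho A (mono T) = 0 := by
  funext x
  rw [clr_apply]
  unfold mono
  obtain ⟨v, hv, hvA⟩ := Finset.not_subset.mp h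
  obtain ⟨i, hi, rfl⟩ := Finset.mem_image.1 hv
  exact Finset.prod_eq_zero hi (if_neg hvA)

theorem proj_vars (o : Finset (Fin M) → ℕ) (hoi : Function.Injective o) (J : Finset (Fin P)) (T : Finset (Fin M))
    (r : Fn M)
    (hr : r ∈ Submodule.span (ZMod 2) (mono '' {T' | ¬ Red o (VP pg ho J) T' ∧ o T' ≤ o T}))
    (hV : mono T - r ∈ VP pg ho J) :
    r ∈ Submodule.span (ZMod 2)
      (mono '' {T' | ¬ Red o (VP pg ho J) T' ∧ o T' ≤ o T ∧ T'.image ho ⊆ T.image ho ∪ J.biUnion (NN pg ho)}) := by
  set A := T.image ho ∪ J.biUnion (NN pg ho) with hA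
  have h1 : clr ho A r ∈
      Submodule.span (ZMod 2) (mono '' {T' | ¬ Red o (VP pg ho J) T' ∧ o T' ≤ o T ∧ T'.image ho ⊆ A}) := by
    have hle : Submodule.span (ZMod 2) (mono '' {T' | ¬ Red o (VP pg ho J) T' ∧ o T' ≤ o T}) ≤
        Submodule.comap (clr ho A)
          (Submodule.span (ZMod 2) (mono '' {T' | ¬ Red o (VP pg ho J) T' ∧ o T' ≤ o T ∧ T'.image ho ⊆ A})) := by
      rw [Submodule.span_le]
      rintro _ ⟨T', hT', rfl⟩
      show clr ho A (mono T') ∈
        Submodule.span (ZMod 2) (mono '' {T' | ¬ Red o (VP pg ho J) T' ∧ o T' ≤ o T ∧ T'.image ho ⊆ A})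
      by_cases hs : T'.image ho ⊆ A
      · rw [clr_mono_of_subset A T' hs]
        exact Submodule.subset_span ⟨T', ⟨hT'.1, hT'.2, hs⟩, rfl⟩
      · rw [clr_mono_of_not_subset A T' hs]
        exact Submodule.zero_mem _
    exact hle hr
  have hinv : ∀ g ∈ VP pg ho J, clr ho A g ∈ VP pg ho J := by
    intro g hg x hx hx'
    rw [clr_apply]
    refine hg _ ?_ ?_
    · intro e e' hne hh h1 h2
      beta_reduce at h1 h2
      by_cases hb : ho e ∈ A
      · rw [if_pos hb] at h1
        rw [if_pos (by rw [← hh]; exact hb)] at h2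
        exact hx e e' hne hh h1 h2
      · rw [if_neg hb] at h1
        exact zero_ne_one h1
    · intro j hj
      obtain ⟨e, he, hxe⟩ := hx' j hj
      refine ⟨e, he, ?_⟩
      rw [if_pos]
      · exact hxe
      · refine Finset.mem_union_right _ (Finset.mem_biUnion.2 ⟨j, hj, ?_⟩)
        unfold NN
        exact Finset.mem_image.2 ⟨e, Finset.mem_filter.2 ⟨Finset.mem_univ _, he⟩, rfl⟩
  have h2 : mono T - clr ho A r ∈ VP pg ho J := by
    have := hinv _ hV
    rwa [map_sub, clr_mono_of_subset A T Finset.subset_union_left] at this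
  have h3 : r - clr ho A r ∈ VP pg ho J := by
    have := Submodule.sub_mem _ h2 hV
    rwa [sub_sub_sub_cancel_left] at this
  have h4 : r - clr ho A r ∈ Submodule.span (ZMod 2) (mono '' {T' | ¬ Red o (VP pg ho J) T'}) := by
    refine Submodule.sub_mem _ (Submodule.span_mono ?_ hr) (Submodule.span_mono ?_ h1)
    · rintro _ ⟨T', hT', rfl⟩
      exact ⟨T', hT'.1, rfl⟩
    · rintro _ ⟨T', hT', rfl⟩
      exact ⟨T', hT'.1, rfl⟩
  have h5 := irr_unique o hoi _ _ h3 h4
  rw [sub_eq_zero] at h5
  rw [h5]
  exact h1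

end H38PH
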