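import Pool.Agent.H38.PH.Op
import Pool.Agent.H96.RE.PCmul

/-!
The operator theorem for the pigeonhole principle: the monomials of good sets are independent modulo what polynomial calculus
derives (helper38).
-/

set_option autoImplicit false
open scoped Classical

namespace H38PH

open ResXor H33RP

variable {M P Q : ℕ} {pg : Fin M → Fin P} {ho : Fin M → Fin Q}

/-- the closure of a set of edges -/
noncomputable def cl (pg : Fin M → Fin P) (ho : Fin M → Fin Q) (B : ℕ) (T : Finset (Fin M)) : Finset (Fin P) :=
  Spt (NN pg ho) B (T.image ho)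

theorem card_ho {E B : ℕ} (hE : 16 * E ≤ B) {T : Finset (Fin M)} (hT : T.card ≤ E) : 16 * (T.image ho).card ≤ B := by
  have := Finset.card_image_le (s := T) (f := ho)
  omega

theorem cl_card {E B : ℕ} (hS : Exp (NN pg ho) B) (hE : 16 * E ≤ B) {T : Finset (Fin M)} (hT : T.card ≤ E) :
    (cl pg ho B T).card ≤ B := by
  have h1 := spt_card hS (T.image ho) (card_ho hE hT)
  have h2 := Finset.card_image_le (s := T) (f := ho)
  unfold cl
  omega

theorem cl_sub {E B : ℕ} (hS : Exp (NN pg ho) B) (hE : 16 * E ≤ B) {T T' : Finset (Fin M)} (hT : T.card ≤ E)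
    (hT' : T'.card ≤ E) (h : T'.image ho ⊆ T.image ho ∪ (cl pg ho B T).biUnion (NN pg ho)) :
    cl pg ho B T' ⊆ cl pg ho B T :=
  spt_sub hS _ _ (card_ho hE hT) (card_ho hE hT') h

/-- locality of the projection -/
theorem P_eq {E B : ℕ} (hS : Exp (NN pg ho) B) (hE : 16 * E ≤ B) {o : Finset (Fin M) → ℕ} (ho' : Ord o)
    {R : Finset (Fin P) → Fn M →ₗ[ZMod 2] Fn M}
    (hR0 : ∀ J, ∀ g ∈ VP pg ho J, R J g = 0) (hR1 : ∀ J T, ¬ Red o (VP pg ho J) T → R J (mono T) = mono T)
    (hR2 : ∀ J g, g - R J g ∈ VP pg ho J)
    (hR3 : ∀ J T, R J (mono T) ∈ Submodule.span (ZMod 2) (mono '' {T' | ¬ Red o (VP pg ho J) T' ∧ o T' ≤ o T}))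
    {T : Finset (Fin M)} (hT : T.card ≤ E) {J : Finset (Fin P)} (hJ : J.card ≤ B) (hTJ : cl pg ho B T ⊆ J) :
    R J (mono T) = R (cl pg ho B T) (mono T) := by
  have h1 := proj_vars o ho'.1 (cl pg ho B T) T (R (cl pg ho B T) (mono T)) (hR3 _ _) (hR2 _ _)
  have h2 : R J (R (cl pg ho B T) (mono T)) = R (cl pg ho B T) (mono T) := by
    have hle : Submodule.span (ZMod 2)
      (mono '' {T' | ¬ Red o (VP pg ho (cl pg ho B T)) T' ∧ o T' ≤ o T ∧
        T'.image ho ⊆ T.image ho ∪ (cl pg ho B T).biUnion (NN pg ho)}) ≤ LinearMap.eqLocus (R J) LinearMap.id := by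
      rw [Submodule.span_le]
      rintro _ ⟨T', ⟨hr, ho1, hv⟩, rfl⟩
      have hc : T'.card ≤ E := by
        by_contra hh
        have := ho'.2 T' T (by omega)
        omega
      have hsub := cl_sub hS hE hT hc hv
      show R J (mono T') = mono T'
      apply hR1
      intro hred
      apply hr
      have h3 := red_spt o ho' hS T' (card_ho hE hc) J hJ (hsub.trans hTJ) hred
      have h4 : VP pg ho (Spt (NN pg ho) B (T'.image ho)) ≤ VP pg ho (cl pg ho B T) := VP_mono hsub
      exact sup_le_sup_right h4 _ h3
    exact hle h1
  have h5 : R J (mono T - R (cl pg ho B T) (mono T)) = 0 := hR0 _ _ (VP_mono hTJ (hR2 _ _))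
  rw [map_sub, h2, sub_eq_zero] at h5
  exact h5

/-- the kernel of the operator -/
theorem op_exists {E B : ℕ} (hS : Exp (NN pg ho) B) (hE : 16 * E ≤ B) (hB : 1 ≤ B)
    (hk : ∀ j, (Finset.univ.filter (fun e => pg e = j)).card ≤ E) (h2 : 2 ≤ E) :
    ∃ K : Submodule (ZMod 2) (Fn M),
      (∀ g ∈ K, ∀ e, e + 1 ≤ E → g ∈ RM M e → ∀ i : Fin M, (fun x => x i * g x) ∈ K) ∧
      (∀ j : Ix pg ho, fal (clS pg ho j) (clσ pg ho j) ∈ K) ∧
      ∀ f ∈ Submodule.span (ZMod 2) (mono '' {T : Finset (Fin M) | T.card ≤ E ∧ T ∈ GoodP pg ho B}), f ∈ K → f = 0 := by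
  obtain ⟨o, ho'⟩ := ord_exists M
  have hpr := fun J : Finset (Fin P) => proj o ho'.1 (VP pg ho J)
  choose R hR0 hR1 hR2 hR3 using hpr
  obtain ⟨b, hb⟩ : ∃ b : Module.Basis (Finset (Fin M)) (ZMod 2) (Fn M), ∀ T, b T = mono T := by
    refine ⟨Module.Basis.mk (mono_li M) (by rw [mono_top]), fun T => ?_⟩
    rw [Module.Basis.mk_apply]
  obtain ⟨L, hL⟩ : ∃ L : Fn M →ₗ[ZMod 2] Fn M, ∀ T : Finset (Fin M), T.card ≤ E → L (mono T) = R (cl pg ho B T) (mono T) := by
    refine ⟨b.constr (ZMod 2) (fun T => R (cl pg ho B T) (mono T)), fun T _ => ?_⟩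
    rw [← hb T, Module.Basis.constr_basis, hb]
  -- locality
  have hloc : ∀ {J : Finset (Fin P)}, J.card ≤ B → ∀ {g : Fn M},
      g ∈ Submodule.span (ZMod 2) (mono '' {T : Finset (Fin M) | T.card ≤ E ∧ cl pg ho B T ⊆ J}) → L g = R J g := by
    intro J hJ g hg
    have hle : Submodule.span (ZMod 2) (mono '' {T : Finset (Fin M) | T.card ≤ E ∧ cl pg ho B T ⊆ J}) ≤
        LinearMap.eqLocus L (R J) := by
      rw [Submodule.span_le]
      rintro _ ⟨T, ⟨hT, hTJ⟩, rfl⟩
      show L (mono T) = R J (mono T)
      rw [hL T hT, P_eq hS hE ho' hR0 hR1 hR2 hR3 hT hJ hTJ]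
    exact hle hg
  refine ⟨RM M E ⊓ LinearMap.ker L, ?_, ?_, ?_⟩
  · rintro g ⟨hg1, hg2⟩ D hD hgD i
    refine ⟨RM_le hD (RM_var hgD i), ?_⟩
    have hmul : ∃ m : Fn M →ₗ[ZMod 2] Fn M, ∀ g x, m g x = x i * g x := by
      refine ⟨{ toFun := fun g x => x i * g x, map_add' := ?_, map_smul' := ?_ }, fun g x => rfl⟩
      · intro a b
        funext x
        show x i * (a x + b x) = x i * a x + x i * b x
        ring
      · intro c a
        funext x
        show x i * (c * a x) = c * (x i * a x)
        ring
    obtain ⟨m, hm⟩ := hmul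
    have hmono : ∀ T : Finset (Fin M), m (mono T) = mono (insert i T) := by
      intro T
      funext x
      rw [hm]
      have h1 : mono {i} * mono T = mono ({i} ∪ T) := mono_mul {i} T
      have h2 := congrFun h1 x
      rw [Finset.insert_eq, ← h2]
      show x i * mono T x = mono {i} x * mono T x
      congr 1
      show x i = ∏ k ∈ ({i} : Finset (Fin M)), x k
      rw [Finset.prod_singleton]
    have key : ∀ h ∈ RM M D, L (m h) = L (m (L h)) := by
      intro h hh
      have hle : RM M D ≤ LinearMap.eqLocus (L.comp m) (L.comp (m.comp L)) := by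
        unfold RM
        rw [Submodule.span_le]
        rintro _ ⟨T, hT, rfl⟩
        have hT1 : T.card ≤ D := hT
        show L (m (mono T)) = L (m (L (mono T)))
        have hTE : T.card ≤ E := by omega
        have hiE : (insert i T).card ≤ E := (Finset.card_insert_le i T).trans (by omega)
        obtain ⟨J, hJd⟩ : ∃ J, J = cl pg ho B (insert i T) := ⟨_, rfl⟩
        have hJB : J.card ≤ B := by rw [hJd]; exact cl_card hS hE hiE
        have hcT : cl pg ho B T ⊆ J := by
          rw [hJd]
          exact cl_sub hS hE hiE hTE ((Finset.image_subset_image (Finset.subset_insert i T)).trans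
            Finset.subset_union_left)
        have hr := proj_vars o ho'.1 (cl pg ho B T) T (R (cl pg ho B T) (mono T)) (hR3 _ _) (hR2 _ _)
        have h3 : m (R (cl pg ho B T) (mono T)) ∈
            Submodule.span (ZMod 2) (mono '' {T : Finset (Fin M) | T.card ≤ E ∧ cl pg ho B T ⊆ J}) := by
          have hle2 : Submodule.span (ZMod 2)
              (mono '' {T' | ¬ Red o (VP pg ho (cl pg ho B T)) T' ∧ o T' ≤ o T ∧
                T'.image ho ⊆ T.image ho ∪ (cl pg ho B T).biUnion (NN pg ho)}) ≤
              Submodule.comap m
                (Submodule.span (ZMod 2) (mono '' {T : Finset (Fin M) | T.card ≤ E ∧ cl pg ho B T ⊆ J})) := by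
            rw [Submodule.span_le]
            rintro _ ⟨T', ⟨-, ho1, hv⟩, rfl⟩
            have hc : T'.card ≤ D := by
              by_contra hh
              have := ho'.2 T' T (by omega)
              omega
            have hcE : (insert i T').card ≤ E := (Finset.card_insert_le i T').trans (by omega)
            show m (mono T') ∈ Submodule.span (ZMod 2) (mono '' {T : Finset (Fin M) | T.card ≤ E ∧ cl pg ho B T ⊆ J})
            rw [hmono]
            refine Submodule.subset_span ⟨insert i T', ⟨hcE, ?_⟩, rfl⟩
            rw [hJd]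
            refine cl_sub hS hE hiE hcE ?_
            rw [Finset.image_insert, Finset.image_insert]
            intro v hv'
            rw [Finset.mem_insert] at hv'
            rw [Finset.mem_union, Finset.mem_insert]
            rcases hv' with hv' | hv'
            · exact Or.inl (Or.inl hv')
            · have h4 := hv hv'
              rw [Finset.mem_union] at h4
              rcases h4 with h4 | h4
              · exact Or.inl (Or.inr h4)
              · right
                rw [← hJd]
                rw [Finset.mem_biUnion] at h4 ⊢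
                obtain ⟨j, hj, hvj⟩ := h4
                exact ⟨j, hcT hj, hvj⟩
          exact hle2 hr
        rw [hL T hTE, hloc hJB h3, hmono, hL _ hiE, ← hJd, ← hmono]
        have h6 : R J (m (mono T - R (cl pg ho B T) (mono T))) = 0 := by
          apply hR0
          have h7 : mono T - R (cl pg ho B T) (mono T) ∈ VP pg ho J := VP_mono hcT (hR2 _ _)
          have h8 := VP_mul h7 (fun x => x i)
          have h9 : m (mono T - R (cl pg ho B T) (mono T)) =
              (fun x => x i) * (mono T - R (cl pg ho B T) (mono T)) := by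
            funext x
            rw [hm]
            rfl
          rw [h9]
          exact h8
        rw [map_sub, map_sub, sub_eq_zero] at h6
        exact h6
      exact hle hh
    have h0 : L g = 0 := hg2
    have h1 := key g hgD
    rw [h0, map_zero, map_zero] at h1
    show L (fun x => x i * g x) = 0
    have h2 : (fun x => x i * g x) = m g := by
      funext x
      rw [hm]
    rw [h2]
    exact h1
  · -- the clauses
    intro j
    have hcard : (clS pg ho j).card ≤ E := by
      rcases j with j | p
      · exact hk j
      · exact (Finset.card_insert_le _ _).trans (by rw [Finset.card_singleton]; exact h2)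
    have hspan := fal_span (clS pg ho j) (clσ pg ho j)
    have hRM : fal (clS pg ho j) (clσ pg ho j) ∈ RM M E := by
      refine (Submodule.span_mono ?_) hspan
      rintro _ ⟨T, hT, rfl⟩
      exact ⟨T, (Finset.card_le_card hT).trans hcard, rfl⟩
    refine ⟨hRM, ?_⟩
    show L (fal (clS pg ho j) (clσ pg ho j)) = 0
    obtain ⟨J, hJd⟩ : ∃ J, J = cl pg ho B (clS pg ho j) := ⟨_, rfl⟩
    have hJB : J.card ≤ B := by rw [hJd]; exact cl_card hS hE hcard
    have h3 : fal (clS pg ho j) (clσ pg ho j) ∈
        Submodule.span (ZMod 2) (mono '' {T : Finset (Fin M) | T.card ≤ E ∧ cl pg ho B T ⊆ J}) := by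
      refine (Submodule.span_mono ?_) hspan
      rintro _ ⟨T, hT, rfl⟩
      have hT' : T ⊆ clS pg ho j := hT
      have hTE := (Finset.card_le_card hT').trans hcard
      refine ⟨T, ⟨hTE, ?_⟩, rfl⟩
      rw [hJd]
      exact cl_sub hS hE hcard hTE ((Finset.image_subset_image hT').trans Finset.subset_union_left)
    rw [hloc hJB h3]
    apply hR0
    intro x hx hx'
    unfold fal
    rw [if_neg]
    rcases j with j | p
    · intro hall
      have hjJ : j ∈ J := by
        rw [hJd]
        unfold cl
        refine spt_max _ {j} (by rw [Finset.card_singleton]; exact hB) ?_ (Finset.mem_singleton_self j)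
        intro v hv
        obtain ⟨j', hj', hv', -⟩ := ba_bd_iff.1 hv
        rw [Finset.mem_singleton] at hj'
        rw [hj'] at hv'
        exact hv'
      obtain ⟨e, he, hxe⟩ := hx' j hjJ
      have h4 := hall e (Finset.mem_filter.2 ⟨Finset.mem_univ _, he⟩)
      rw [hxe] at h4
      exact one_ne_zero h4
    · intro hall
      refine hx p.1.1 p.1.2 p.2.1 p.2.2 ?_ ?_
      · exact hall _ (Finset.mem_insert_self _ _)
      · exact hall _ (Finset.mem_insert_of_mem (Finset.mem_singleton_self _))
  · -- good monomials
    rintro f hf ⟨-, hf2⟩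
    have hLf : L f = f := by
      have hle : Submodule.span (ZMod 2) (mono '' {T : Finset (Fin M) | T.card ≤ E ∧ T ∈ GoodP pg ho B}) ≤
          LinearMap.eqLocus L LinearMap.id := by
        rw [Submodule.span_le]
        rintro _ ⟨T, ⟨hT, hG⟩, rfl⟩
        show L (mono T) = mono T
        have hcl : cl pg ho B T = ∅ := by
          by_contra hne
          have hG2 := hG.2 (cl pg ho B T) (Finset.nonempty_iff_ne_empty.2 hne) (cl_card hS hE hT)
          exact hG2 (spt_bd hS _ (card_ho hE hT))
        rw [hL T hT, hcl]
        apply hR1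
        intro hred
        -- Moebius coefficient at `T`
        obtain ⟨g, hg, w, hw, hgw⟩ := Submodule.mem_sup.mp (show mono T ∈ VP pg ho ∅ ⊔
          Submodule.span (ZMod 2) (mono '' {T' | o T' < o T}) from hred)
        obtain ⟨μ, hμ⟩ : ∃ μ : Fn M →ₗ[ZMod 2] ZMod 2, ∀ h : Fn M, μ h =
            ∑ U ∈ T.powerset, h (fun i => if i ∈ U then 1 else 0) := by
          refine ⟨{ toFun := fun h => ∑ U ∈ T.powerset, h (fun i => if i ∈ U then 1 else 0),
                    map_add' := ?_, map_smul' := ?_ }, fun h => rfl⟩
          · intro a b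
            rw [← Finset.sum_add_distrib]
            rfl
          · intro c a
            rw [RingHom.id_apply, smul_eq_mul, Finset.mul_sum]
            rfl
        have hm0 : μ g = 0 := by
          rw [hμ]
          refine Finset.sum_eq_zero fun U hU => ?_
          rw [Finset.mem_powerset] at hU
          refine hg _ ?_ ?_
          · intro e e' hne hh h1 h2
            have h1 : (if e ∈ U then (1 : ZMod 2) else 0) = 1 := h1
            have h2 : (if e' ∈ U then (1 : ZMod 2) else 0) = 1 := h2
            have he : e ∈ U := by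
              by_contra hn
              rw [if_neg hn] at h1
              exact zero_ne_one h1
            have he' : e' ∈ U := by
              by_contra hn
              rw [if_neg hn] at h2
              exact zero_ne_one h2
            exact hne (hG.1 e (hU he) e' (hU he') hh)
          · intro j hj
            exact absurd hj (Finset.notMem_empty j)
        have hmono : ∀ T' : Finset (Fin M), ¬ T ⊆ T' → μ (mono T') = 0 := by
          intro T' hT'
          obtain ⟨i, hi, hiT'⟩ := Finset.not_subset.1 hT'
          rw [hμ]
          rw [← Finset.insert_erase hi, Finset.sum_powerset_insert (Finset.notMem_erase i T), ← Finset.sum_add_distrib]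
          refine Finset.sum_eq_zero fun U hU => ?_
          have h5 : mono T' (fun k => if k ∈ insert i U then (1 : ZMod 2) else 0) =
              mono T' (fun k => if k ∈ U then (1 : ZMod 2) else 0) := by
            unfold mono
            refine Finset.prod_congr rfl fun k hk => ?_
            have hki : k ≠ i := by rintro rfl; exact hiT' hk
            simp only [Finset.mem_insert, hki, false_or]
          rw [h5]
          exact CharTwo.add_self_eq_zero _
        have hmT : μ (mono T) = 1 := by
          rw [hμ, Finset.sum_eq_single T]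
          · unfold mono
            exact Finset.prod_eq_one fun i hi => if_pos hi
          · intro U hU hne
            rw [Finset.mem_powerset] at hU
            have : ¬ T ⊆ U := fun h => hne (Finset.Subset.antisymm hU h)
            obtain ⟨i, hi, hiU⟩ := Finset.not_subset.1 this
            unfold mono
            exact Finset.prod_eq_zero hi (if_neg hiU)
          · intro h
            exact absurd (Finset.mem_powerset.2 (Finset.Subset.refl T)) h
        have hw0 : μ w = 0 := by
          have hle3 : Submodule.span (ZMod 2) (mono '' {T' | o T' < o T}) ≤ LinearMap.ker μ := by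
            rw [Submodule.span_le]
            rintro _ ⟨T', hT', rfl⟩
            have hT'' : o T' < o T := hT'
            show μ (mono T') = 0
            apply hmono
            intro hsub
            rcases lt_or_eq_of_le (Finset.card_le_card hsub) with h7 | h7
            · have := ho'.2 T' T h7
              omega
            · have := Finset.eq_of_subset_of_card_le hsub (by omega)
              rw [this] at hT''
              omega
          exact hle3 hw
        rw [← hgw, map_add, hm0, hw0, add_zero] at hmT
        exact zero_ne_one hmT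
      exact hle hf
    have h0 : L f = 0 := hf2
    rw [← hLf]
    exact h0

theorem thmPH {E B : ℕ} (hS : Exp (NN pg ho) B) (hE : 16 * E ≤ B) (hB : 1 ≤ B)
    (hk : ∀ j, (Finset.univ.filter (fun e => pg e = j)).card ≤ E) (h2 : 2 ≤ E) :
    Disjoint (Submodule.span (ZMod 2) (H96RE.mono '' {T : Finset (Fin M) | T.card ≤ E ∧ T ∈ GoodP pg ho B}))
      (H96RE.PC (clS pg ho) (clσ pg ho) E) := by
  obtain ⟨K, h1, h3, h4⟩ := op_exists hS hE hB hk h2
  rw [Submodule.disjoint_def]
  intro f hf hfP
  refine h4 f hf ?_
  have hle : H96RE.PC (clS pg ho) (clσ pg ho) E ≤ K := by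
    refine sInf_le ⟨?_, ?_⟩
    · intro j
      have := h3 j
      have he : H96RE.indic (H96RE.falseSet (clS pg ho j) (clσ pg ho j)) = fal (clS pg ho j) (clσ pg ho j) := by
        funext x
        unfold H96RE.indic H96RE.falseSet fal
        by_cases hx : ∀ v ∈ clS pg ho j, x v = clσ pg ho j v
        · rw [if_pos hx, if_pos]
          exact hx
        · rw [if_neg hx, if_neg]
          exact hx
      rw [he]
      exact this
    · intro g hg e he hge i
      exact h1 g hg e he hge i
  exact hle hfP

end H38PH
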