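import Pool.Agent.H38.PH.F1

/-!
Functions of bounded degree over an arbitrary set of variables, and restrictions (helper38; project MP_28250c_PH).
-/

set_option autoImplicit false
open scoped Classical

namespace H38PF

section
variable {F : Type} [Field F] {ι κ : Type}

/-- monomials over an arbitrary index type -/
def moni (F : Type) [Field F] {ι : Type} (T : Finset ι) : (ι → Bool) → F := fun x => ∏ i ∈ T, vl F (x i)

/-- functions of degree at most `D` -/
def RMi (F : Type) [Field F] (ι : Type) (D : ℕ) : Submodule F ((ι → Bool) → F) :=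
  Submodule.span F (moni F '' {T : Finset ι | T.card ≤ D})

theorem RMi_fin (n D : ℕ) : RMi F (Fin n) D = RM F n D := rfl

theorem RMi_mono {D D' : ℕ} (h : D ≤ D') : RMi F ι D ≤ RMi F ι D' := by
  refine Submodule.span_mono (Set.image_mono ?_)
  intro T hT
  have : T.card ≤ D := hT
  show T.card ≤ D'
  omega

theorem vl_mul_self (b : Bool) : vl F b * vl F b = vl F b := by
  cases b <;> simp [vl]

theorem moni_insert (i : ι) (T : Finset ι) (x : ι → Bool) : moni F (insert i T) x = vl F (x i) * moni F T x := by
  unfold moni
  by_cases h : i ∈ T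
  · rw [Finset.insert_eq_of_mem h, ← Finset.mul_prod_erase T _ h, ← mul_assoc, vl_mul_self]
  · rw [Finset.prod_insert h]

theorem mulv_mem {D : ℕ} (i : ι) {g : (ι → Bool) → F} (hg : g ∈ RMi F ι D) :
    (fun x => vl F (x i) * g x) ∈ RMi F ι (D + 1) := by
  let L : ((ι → Bool) → F) →ₗ[F] ((ι → Bool) → F) := LinearMap.mulLeft F (fun x => vl F (x i))
  have hle : RMi F ι D ≤ (RMi F ι (D + 1)).comap L := by
    unfold RMi
    rw [Submodule.span_le]
    rintro _ ⟨T, hT, rfl⟩
    have hT' : T.card ≤ D := hT
    show (fun x => vl F (x i) * moni F T x) ∈ Submodule.span F (moni F '' {T : Finset ι | T.card ≤ D + 1})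
    have : (fun x => vl F (x i) * moni F T x) = moni F (insert i T) := by
      funext x
      rw [moni_insert]
    rw [this]
    refine Submodule.subset_span ⟨_, ?_, rfl⟩
    show (insert i T).card ≤ D + 1
    have := Finset.card_insert_le i T
    omega
  exact hle hg

/-- Restrictions (each variable is replaced by `0` or by a variable) do not raise the degree. -/
theorem comp_mem (ρ : (κ → Bool) → (ι → Bool))
    (h : ∀ i, (∀ x, ρ x i = false) ∨ ∃ s : κ, ∀ x, ρ x i = x s) {D : ℕ} {g : (ι → Bool) → F} (hg : g ∈ RMi F ι D) :
    (fun x => g (ρ x)) ∈ RMi F κ D := by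
  let L : ((ι → Bool) → F) →ₗ[F] ((κ → Bool) → F) := LinearMap.funLeft F F ρ
  have hmon : ∀ T : Finset ι, (fun x => moni F T (ρ x)) ∈ RMi F κ T.card := by
    intro T
    induction T using Finset.induction_on with
    | empty =>
      refine Submodule.subset_span ⟨∅, ?_, ?_⟩
      · show (∅ : Finset κ).card ≤ _
        simp
      · funext x
        simp [moni]
    | insert i T hi ih =>
      rw [Finset.card_insert_of_notMem hi]
      rcases h i with h0 | ⟨s, hs⟩
      · have : (fun x => moni F (insert i T) (ρ x)) = 0 := by
          funext x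
          rw [moni_insert, h0]
          show (0 : F) * _ = 0
          rw [zero_mul]
        rw [this]
        exact Submodule.zero_mem _
      · have : (fun x => moni F (insert i T) (ρ x)) = fun x => vl F (x s) * moni F T (ρ x) := by
          funext x
          rw [moni_insert, hs]
        rw [this]
        exact mulv_mem s ih
  have hle : RMi F ι D ≤ (RMi F κ D).comap L := by
    conv_lhs => unfold RMi
    rw [Submodule.span_le]
    rintro _ ⟨T, hT, rfl⟩
    exact RMi_mono hT (hmon T)
  exact hle hg

/-- The value of a polynomial at a 0/1 point. -/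
noncomputable def ev (P : MvPolynomial ι F) (x : ι → Bool) : F := MvPolynomial.eval (fun i => vl F (x i)) P

theorem vl_pow (b : Bool) {k : ℕ} (hk : k ≠ 0) : vl F b ^ k = vl F b := by
  cases b
  · show (0 : F) ^ k = 0
    exact zero_pow hk
  · show (1 : F) ^ k = 1
    exact one_pow k

theorem ev_mem {P : MvPolynomial ι F} {D : ℕ} (h : P.totalDegree ≤ D) : ev P ∈ RMi F ι D := by
  have h1 : ev P = ∑ s ∈ P.support, MvPolynomial.coeff s P • moni F s.support := by
    funext x
    unfold ev
    rw [MvPolynomial.eval_eq, Finset.sum_apply]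
    refine Finset.sum_congr rfl fun s _ => ?_
    show _ = MvPolynomial.coeff s P * ∏ i ∈ s.support, vl F (x i)
    congr 1
    refine Finset.prod_congr rfl fun i hi => ?_
    exact vl_pow _ (Finsupp.mem_support_iff.1 hi)
  rw [h1]
  refine Submodule.sum_mem _ fun s hs => Submodule.smul_mem _ _ (Submodule.subset_span ⟨s.support, ?_, rfl⟩)
  show s.support.card ≤ D
  have h2 : (s.sum fun _ e => e) ≤ P.totalDegree := MvPolynomial.le_totalDegree hs
  refine le_trans ?_ (h2.trans h)
  rw [Finsupp.sum, Finset.card_eq_sum_ones]
  refine Finset.sum_le_sum fun i hi => ?_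
  have := Finsupp.mem_support_iff.1 hi
  omega

end

end H38PF
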