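import Pool.Agent.H85.SD.Defs

/-!
The pigeonhole principle and the proof system (helper38; project MP_28250c_PH).
-/

set_option autoImplicit false
open scoped Classical

namespace PigeonRes

open SizeDegree

/-- Pigeon `i` sits in some hole: some variable `(i, j)` is true (the variable `(i, j)` says that pigeon `i` sits in
hole `j`; the variables are numbered by the standard bijection of `Fin m × Fin n` with `Fin (m * n)`). -/
def pigeonClause (m n : ℕ) (i : Fin m) : Clause (m * n) :=
  Finset.univ.image (fun j : Fin n => (finProdFinEquiv (i, j), true))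

/-- The pigeons `i` and `i'` do not both sit in hole `j`. -/
def holeClause (m n : ℕ) (i i' : Fin m) (j : Fin n) : Clause (m * n) :=
  {(finProdFinEquiv (i, j), false), (finProdFinEquiv (i', j), false)}

/-- All clauses of the list `Φ` are clauses of the pigeonhole principle for `m` pigeons and `n` holes. -/
def IsPHP {m n M : ℕ} (Φ : Fin M → Clause (m * n)) : Prop :=
  ∀ a, (∃ i, Φ a = pigeonClause m n i) ∨ ∃ i i' j, i ≠ i' ∧ Φ a = holeClause m n i i' j

/-- The condition given by a literal: the function which is 1 where the literal is true and 0 where it is false. -/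
def lit (p : ℕ) {n : ℕ} (l : Fin n × Bool) : Pt n → ZMod p := fun x => if x l.1 = l.2 then 1 else 0

/-- The CNF `Φ` has a refutation with `N` lines: every line contains all literals of a clause, or is inferred from at most
`f` earlier lines with at most `s` main conditions per line; the last line is false everywhere. -/
def Refutation {n m : ℕ} (p e t f s : ℕ) (Φ : Fin m → Clause n) (N : ℕ) : Prop :=
  ∃ l : ℕ → Line p n e t, 1 ≤ N ∧ (∀ x, ¬ (l (N - 1)).Holds x) ∧
    ∀ i < N, (∃ j, ∀ a ∈ Φ j, lit p a ∈ (l i).E) ∨
      ∃ J : Finset ℕ, J.card ≤ f ∧ (∀ j ∈ J, j < i) ∧ Infers s Φ ∅ l J (l i)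

end PigeonRes
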