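import Pool.Agent.H38.PH.Gs
import Pool.Agent.H38.PH.Rs
import Pool.Agent.H38.PH.Sys

/-!
Restrictions of refutations, and the restriction of the pigeonhole principle to a graph (helper38; project MP_28250c_PH).
-/

set_option autoImplicit false
open scoped Classical

namespace H38PG

open SizeDegree H38PF

section restrict
variable {p n n' e t : ℕ} [Fact p.Prime] (ρ : SizeDegree.Pt n' → SizeDegree.Pt n)
  (hρ : ∀ i, (∀ x, ρ x i = false) ∨ ∃ s, ∀ x, ρ x i = x s)

include hρ in
theorem degLE_comp {d : ℕ} {g : SizeDegree.Pt n → ZMod p} (h : DegLE d g) : DegLE d (fun x => g (ρ x)) :=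
  RM_le (comp_mem (ι := Fin n) (κ := Fin n') ρ hρ (mem_RM h))

include hρ in
theorem cond_comp {d : ℕ} {g : SizeDegree.Pt n → ZMod p} (h : Cond d g) : Cond d (fun x => g (ρ x)) :=
  ⟨degLE_comp ρ hρ h.1, fun x => h.2 (ρ x)⟩

/-- the restriction of a line -/
def rline (l : Line p n e t) : Line p n' e t where
  E := (fun g x => g (ρ x)) '' l.E
  hE := by
    rintro _ ⟨g, hg, rfl⟩
    exact cond_comp ρ hρ (l.hE g hg)
  h := fun x => l.h (ρ x)
  hh := cond_comp ρ hρ l.hh

theorem rline_holds (l : Line p n e t) (x : SizeDegree.Pt n') : (rline ρ hρ l).Holds x ↔ l.Holds (ρ x) := by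
  constructor
  · rintro (⟨_, ⟨g, hg, rfl⟩, h⟩ | h)
    · exact Or.inl ⟨g, hg, h⟩
    · exact Or.inr h
  · rintro (⟨g, hg, h⟩ | h)
    · exact Or.inl ⟨_, ⟨g, hg, rfl⟩, h⟩
    · exact Or.inr h

theorem span_comp {S : Set (SizeDegree.Pt n → ZMod p)} {g : SizeDegree.Pt n → ZMod p} (h : g ∈ Submodule.span (ZMod p) S) :
    (fun x => g (ρ x)) ∈ Submodule.span (ZMod p) ((fun g x => g (ρ x)) '' S) := by
  have h1 := Submodule.mem_map_of_mem (f := LinearMap.funLeft (ZMod p) (ZMod p) ρ) h
  rw [Submodule.map_span] at h1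
  exact h1

include hρ in
theorem refutes_restrict {M M' s f N : ℕ} (Φ : Fin M → Clause n) (Ψ : Fin M' → Clause n')
    (hcl : ∀ j, (∀ x, (Φ j).Holds (ρ x)) ∨ ∃ j', ∀ x, (Ψ j').Holds x → (Φ j).Holds (ρ x))
    (h : Refutes p e t f s Φ N) : Refutes p e t f s Ψ N := by
  obtain ⟨l, hN, hlast, hinf⟩ := h
  refine ⟨fun i => rline ρ hρ (l i), hN, fun x hx => hlast (ρ x) ((rline_holds ρ hρ _ x).1 hx), fun i hi => ?_⟩
  obtain ⟨J, Jc, hJ, hJc, hJi, A, B, hA, hB, hBc, hsound⟩ := hinf i hi
  let W : Fin M → Finset (Fin M') := fun j => if h : ∃ j', ∀ x, (Ψ j').Holds x → (Φ j).Holds (ρ x) then {Classical.choose h} else ∅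
  have hW1 : ∀ j, (W j).card ≤ 1 := by
    intro j
    simp only [W]
    split_ifs
    · simp
    · simp
  have hW2 : ∀ j x, (∀ j' ∈ W j, (Ψ j').Holds x) → (Φ j).Holds (ρ x) := by
    intro j x hj
    rcases hcl j with h1 | h1
    · exact h1 x
    · refine Classical.choose_spec h1 x (hj _ ?_)
      simp only [W]
      rw [dif_pos h1]
      exact Finset.mem_singleton_self _
  refine ⟨J, Jc.biUnion W, hJ, ?_, hJi, fun j => (A j).image (fun g x => g (ρ x)), B.image (fun g x => g (ρ x)), ?_, ?_, ?_, ?_⟩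
  · refine Finset.card_biUnion_le.trans ((Finset.sum_le_card_nsmul Jc _ 1 fun j _ => hW1 j).trans ?_)
    rw [smul_eq_mul, mul_one]
    exact hJc
  · intro j hj
    obtain ⟨a1, a2, a3⟩ := hA j hj
    refine ⟨Finset.card_image_le.trans a1, ?_, ?_⟩
    · intro g hg
      obtain ⟨g', hg', rfl⟩ := Finset.mem_image.1 hg
      exact cond_comp ρ hρ (a2 g' hg')
    · rintro _ ⟨g, hg, rfl⟩
      have h1 := span_comp ρ (a3 hg)
      have e1 : (fun (g : SizeDegree.Pt n → ZMod p) (x : SizeDegree.Pt n') => g (ρ x)) '' ((l i).E ∪ (A j : Set (SizeDegree.Pt n → ZMod p))) =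
          (rline ρ hρ (l i)).E ∪ (((A j).image (fun g x => g (ρ x)) : Finset (SizeDegree.Pt n' → ZMod p)) : Set (SizeDegree.Pt n' → ZMod p)) := by
        rw [Set.image_union, Finset.coe_image]
        rfl
      rw [e1] at h1
      exact h1
  · exact Finset.card_image_le.trans hB
  · intro g hg
    obtain ⟨g', hg', rfl⟩ := Finset.mem_image.1 hg
    exact ⟨cond_comp ρ hρ (hBc g' hg').1, span_comp ρ (hBc g' hg').2⟩
  · intro x hx1 hx2
    have h1 := hsound (ρ x) (fun j hj => hW2 j x fun j' hj' => hx1 j' (Finset.mem_biUnion.2 ⟨j, hj, hj'⟩)) (by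
      intro j hj
      rcases hx2 j hj with h2 | ⟨g, hg, h2⟩
      · exact Or.inl h2
      · obtain ⟨g', hg', rfl⟩ := Finset.mem_image.1 hg
        exact Or.inr ⟨g', hg', h2⟩)
    rcases h1 with h1 | ⟨g, hg, h1⟩
    · exact Or.inl h1
    · exact Or.inr ⟨_, Finset.mem_image.2 ⟨g, hg, rfl⟩, h1⟩

end restrict

open PigeonRes

export PigeonRes (pigeonClause holeClause)

section graph
variable {M m n : ℕ} (pg : Fin M → Fin m) (hv : Fin M → Fin n)

/-- the restriction to a graph -/
noncomputable def rho (x : SizeDegree.Pt M) : SizeDegree.Pt (m * n) := fun i =>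
  if h : ∃ e, finProdFinEquiv (pg e, hv e) = i then x (Classical.choose h) else false

theorem rho_or (i : Fin (m * n)) : (∀ x, rho pg hv x i = false) ∨ ∃ s, ∀ x, rho pg hv x i = x s := by
  by_cases h : ∃ e, finProdFinEquiv (pg e, hv e) = i
  · right
    refine ⟨Classical.choose h, fun x => ?_⟩
    unfold rho
    rw [dif_pos h]
  · left
    intro x
    unfold rho
    rw [dif_neg h]

variable {pg hv} (hinj : ∀ e e', pg e = pg e' → hv e = hv e' → e = e')

include hinj in
theorem rho_edge (x : SizeDegree.Pt M) (e : Fin M) : rho pg hv x (finProdFinEquiv (pg e, hv e)) = x e := by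
  have h : ∃ e', finProdFinEquiv (pg e', hv e') = finProdFinEquiv (pg e, hv e) := ⟨e, rfl⟩
  unfold rho
  rw [dif_pos h]
  have h1 := finProdFinEquiv.injective (Classical.choose_spec h)
  rw [Prod.mk.injEq] at h1
  rw [hinj _ _ h1.1 h1.2]

theorem rho_not (x : SizeDegree.Pt M) (i : Fin m) (j : Fin n) (h : ∀ e, pg e = i → hv e ≠ j) :
    rho pg hv x (finProdFinEquiv (i, j)) = false := by
  unfold rho
  rw [dif_neg]
  rintro ⟨e, he⟩
  have h1 := finProdFinEquiv.injective he
  rw [Prod.mk.injEq] at h1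
  exact h e h1.1 h1.2

include hinj in
/-- After the restriction every clause of the pigeonhole principle is true or implied by a clause for the graph. -/
theorem clauses_graph {Q M' : ℕ} (ho : Fin M → Fin Q)
    (hho : ∀ e e', hv e = hv e' ↔ ho e = ho e')
    (Φ : Fin M' → Clause (m * n))
    (hΦ : ∀ a, (∃ i, Φ a = pigeonClause m n i) ∨ ∃ i i' j, i ≠ i' ∧ Φ a = holeClause m n i i' j) (a : Fin M') :
    (∀ x, (Φ a).Holds (rho pg hv x)) ∨ ∃ j', ∀ x, (psi pg ho j').Holds x → (Φ a).Holds (rho pg hv x) := by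
  rcases hΦ a with ⟨i, hi⟩ | ⟨i, i', j, hne, hi⟩
  · right
    refine ⟨Fintype.equivFin (Ix pg ho) (Sum.inl i), fun x hx => ?_⟩
    unfold psi at hx
    rw [Equiv.symm_apply_apply] at hx
    obtain ⟨l, hl, hlx⟩ := hx
    simp only [gcl, Finset.mem_image, Finset.mem_filter, Finset.mem_univ, true_and] at hl
    obtain ⟨e, he, rfl⟩ := hl
    rw [hi]
    refine ⟨(finProdFinEquiv (i, hv e), true), Finset.mem_image.2 ⟨hv e, Finset.mem_univ _, rfl⟩, ?_⟩
    show rho pg hv x (finProdFinEquiv (i, hv e)) = true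
    rw [← he, rho_edge hinj]
    exact hlx
  · rw [hi]
    by_cases h1 : ∃ e, pg e = i ∧ hv e = j
    · by_cases h2 : ∃ e', pg e' = i' ∧ hv e' = j
      · right
        obtain ⟨e, he1, he2⟩ := h1
        obtain ⟨e', he1', he2'⟩ := h2
        have hee : e ≠ e' := by
          rintro rfl
          exact hne (he1.symm.trans he1')
        refine ⟨Fintype.equivFin (Ix pg ho) (Sum.inr ⟨(e, e'), hee, (hho e e').1 (he2.trans he2'.symm)⟩), fun x hx => ?_⟩
        unfold psi at hx
        rw [Equiv.symm_apply_apply] at hx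
        obtain ⟨l, hl, hlx⟩ := hx
        simp only [gcl, Finset.mem_insert, Finset.mem_singleton] at hl
        rcases hl with hl | hl
        · subst hl
          refine ⟨(finProdFinEquiv (i, j), false), by simp [holeClause], ?_⟩
          show rho pg hv x (finProdFinEquiv (i, j)) = false
          rw [← he1, ← he2, rho_edge hinj]
          exact hlx
        · subst hl
          refine ⟨(finProdFinEquiv (i', j), false), by simp [holeClause], ?_⟩
          show rho pg hv x (finProdFinEquiv (i', j)) = false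
          rw [← he1', ← he2', rho_edge hinj]
          exact hlx
      · left
        intro x
        refine ⟨(finProdFinEquiv (i', j), false), by simp [holeClause], ?_⟩
        exact rho_not x i' j fun e he hej => h2 ⟨e, he, hej⟩
    · left
      intro x
      refine ⟨(finProdFinEquiv (i, j), false), by simp [holeClause], ?_⟩
      exact rho_not x i j fun e he hej => h1 ⟨e, he, hej⟩

end graph

end H38PG
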